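import Pool.Agent.Lib.MP_8b9a2e_co.Mg.G001

set_option autoImplicit false

namespace Pool.Agent.SG

theorem CmpGen_pow {s : ℝ} {m : ℕ} {C : ℝ} (hs : 1.2 ≤ s) (hm : 5 ≤ m) (hC : 0 ≤ C)
    (h0 : C * (m + 1) ≤ s ^ (m - 1)) (i : ℕ) : C * ((m + i : ℕ) + 1) ≤ s ^ (m + i - 1) := by
  induction i with
  | zero => simpa using h0
  | succ i ih =>
    have e : m + (i + 1) - 1 = (m + i - 1) + 1 := by omega
    rw [e, pow_succ]
    have h1 : (0 : ℝ) ≤ C * ((m + i : ℕ) + 1) := by positivity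
    have h2 : C * ((m + i : ℕ) + 1) * s ≤ s ^ (m + i - 1) * s :=
      mul_le_mul_of_nonneg_right ih (by linarith)
    have h3 : (5 : ℝ) ≤ ((m + i : ℕ) : ℝ) := by
      have : 5 ≤ m + i := by omega
      exact_mod_cast this
    have h4 : C * (((m + (i + 1) : ℕ) : ℝ) + 1) ≤ C * ((m + i : ℕ) + 1) * s := by
      rw [mul_assoc]
      apply mul_le_mul_of_nonneg_left _ hC
      push_cast at h3 ⊢
      nlinarith
    exact h4.trans h2

/-- `(ℓ+1) / s^(ℓ-1) ≤ 11/512` -/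
theorem CmpGen_small {K ℓ : ℕ} {s : ℝ} (hs0 : 0 < s) (hs : s ^ 2 = K) (hK : 3 ≤ K)
    (h : (K = 3 ∧ 13 ≤ ℓ) ∨ (4 ≤ K ∧ 10 ≤ ℓ)) :
    512 / 11 * ((ℓ : ℝ) + 1) ≤ s ^ (ℓ - 1) := by
  rcases h with ⟨h1, h2⟩ | ⟨h1, h2⟩
  · subst h1
    obtain ⟨i, rfl⟩ := Nat.exists_eq_add_of_le h2
    have hs3 : s ^ 2 = 3 := by rw [hs]; norm_num
    apply CmpGen_pow (s := s) (m := 13) (by nlinarith) (by norm_num) (by norm_num)
    have : s ^ (13 - 1) = (s ^ 2) ^ 6 := by rw [← pow_mul]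
    rw [this, hs3]
    norm_num
  · obtain ⟨i, rfl⟩ := Nat.exists_eq_add_of_le h2
    have hK4 : (4 : ℝ) ≤ K := by exact_mod_cast h1
    have hs2 : 2 ≤ s := by nlinarith
    apply CmpGen_pow (s := s) (m := 10) (by linarith) (by norm_num) (by norm_num)
    have : (2 : ℝ) ^ (10 - 1) ≤ s ^ (10 - 1) := pow_le_pow_left₀ (by norm_num) hs2 _
    refine le_trans (by norm_num) this

theorem CmpGen_prod {K : ℕ} {t : ℝ} (ht : t ≠ 0) (a b : ℕ) :
    xx K t (a + 1) * xx K t (b + 1) - xx K t a * xx K t b =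
      (t ^ 2 - 1) * ((t ^ 2 - K) ^ 2 * t ^ (a + b) - (K * t ^ 2 - 1) ^ 2 * (1 / t) ^ (a + b + 2)) := by
  have e : ∀ i : ℕ, (1 / t) ^ i * t ^ i = 1 := fun i => by
    rw [← mul_pow, one_div_mul_cancel ht, one_pow]
  have ea := e a
  have eb := e b
  have e1 : (1 / t) * t = 1 := one_div_mul_cancel ht
  unfold xx
  simp only [pow_add, pow_one]
  set P := (1 / t) ^ a
  set Q := (1 / t) ^ b
  set A := t ^ a
  set B := t ^ b
  set α := (K : ℝ) * t ^ 2 - 1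
  set β := t ^ 2 - (K : ℝ)
  set u := 1 / t
  have e2 : u ^ 2 * t ^ 2 = 1 := by rw [← mul_pow, e1, one_pow]
  linear_combination (α * β * (P * B + Q * A)) * e1 + α ^ 2 * P * Q * e2

theorem CmpGen_eta {K : ℝ} {ℓ : ℕ} {s η : ℝ} (hs0 : 0 < s) (hs : s ^ 2 = K) (hK : 3 ≤ K)
    (hℓ : 10 ≤ ℓ) (hsm : 512 / 11 * ((ℓ : ℝ) + 1) ≤ s ^ (ℓ - 1))
    (hη : η * s ^ (ℓ + 1) = 1015 / 1000 * (K ^ 2 - 1)) :
    0 < η ∧ (ℓ + 1) * η ≤ 219 / 10000 * K ∧ η ≤ 2 / 1000 * K := by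
  have hD : 0 < s ^ (ℓ + 1) := by positivity
  have hη0 : 0 < η := by
    by_contra hcon
    have : η * s ^ (ℓ + 1) ≤ 0 := mul_nonpos_of_nonpos_of_nonneg (not_lt.1 hcon) hD.le
    nlinarith
  have e : s ^ (ℓ + 1) = s ^ (ℓ - 1) * K := by
    rw [← hs, ← pow_add]; congr 1; omega
  have hl : (10 : ℝ) ≤ ℓ := by exact_mod_cast hℓ
  have h1 : (ℓ + 1) * η ≤ 219 / 10000 * K := by
    have h2 : K * (512 / 11 * ((ℓ : ℝ) + 1)) ≤ s ^ (ℓ + 1) := by
      rw [e, mul_comm]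
      exact mul_le_mul_of_nonneg_right hsm (by linarith)
    have h3 : η * (K * (512 / 11 * ((ℓ : ℝ) + 1))) ≤ 1015 / 1000 * (K ^ 2 - 1) := by
      rw [← hη]; exact mul_le_mul_of_nonneg_left h2 hη0.le
    have h4 : K * (((ℓ : ℝ) + 1) * η) ≤ K * (219 / 10000 * K) := by nlinarith
    exact le_of_mul_le_mul_left h4 (by linarith)
  refine ⟨hη0, h1, ?_⟩
  nlinarith

theorem CmpGen_condA {K : ℝ} {ℓ : ℕ} {s η a : ℝ} (hs0 : 0 < s) (hs : s ^ 2 = K) (hK : 3 ≤ K)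
    (hη : η * s ^ (ℓ + 1) = 1015 / 1000 * (K ^ 2 - 1)) (hη0 : 0 < η)
    (h1 : (ℓ + 1) * η ≤ 219 / 10000 * K) (h2 : η ≤ 2 / 1000 * K)
    (ha0 : 0 < a) (ha : a ^ 2 = K - η) : K * a ^ 2 - 1 ≤ η * a ^ (ℓ + 1) := by
  have hK0 : 0 < K := by linarith
  -- a / s ≥ 1 - 0.51 x
  set x := η / K with hx
  have hx0 : 0 < x := by positivity
  have hxK : x * K = η := by rw [hx]; field_simp
  have hx2 : x ≤ 2 / 1000 := by rw [hx, div_le_iff₀ hK0]; exact h2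
  have hlx : (ℓ + 1) * x ≤ 219 / 10000 := by
    rw [hx, mul_div_assoc', div_le_iff₀ hK0]; exact h1
  have h3 : (1 - 51 / 100 * x) ≤ a / s := by
    rw [le_div_iff₀ hs0]
    have h4 : ((1 - 51 / 100 * x) * s) ^ 2 ≤ a ^ 2 := by
      rw [mul_pow, hs, ha, ← hxK]
      have : (1 - 51 / 100 * x) ^ 2 ≤ 1 - x := by nlinarith
      nlinarith
    exact le_of_sq_le_sq h4 ha0.le
  have h5 : 1 - (ℓ + 1) * (51 / 100 * x) ≤ (a / s) ^ (ℓ + 1) := by
    have h6 : 1 + ((ℓ + 1 : ℕ) : ℝ) * (-(51 / 100 * x)) ≤ (1 + -(51 / 100 * x)) ^ (ℓ + 1) :=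
      one_add_mul_le_pow (by linarith) (ℓ + 1)
    have h7 : (1 + -(51 / 100 * x)) ^ (ℓ + 1) ≤ (a / s) ^ (ℓ + 1) := by
      apply pow_le_pow_left₀ (by linarith)
      linarith
    push_cast at h6
    linarith
  have h8 : 9888 / 10000 ≤ (a / s) ^ (ℓ + 1) := by nlinarith
  have h9 : η * a ^ (ℓ + 1) = 1015 / 1000 * (K ^ 2 - 1) * (a / s) ^ (ℓ + 1) := by
    rw [← hη, div_pow]; field_simp
  rw [h9, ha]
  have h10 : 0 ≤ 1015 / 1000 * (K ^ 2 - 1) := by nlinarith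
  have h11 := mul_le_mul_of_nonneg_left h8 h10
  nlinarith

theorem CmpGen_condB {K : ℝ} {ℓ : ℕ} {s η b : ℝ} (hs0 : 0 < s) (hs : s ^ 2 = K) (hK : 3 ≤ K)
    (hη : η * s ^ (ℓ + 1) = 1015 / 1000 * (K ^ 2 - 1)) (hη0 : 0 < η)
    (h2 : η ≤ 2 / 1000 * K)
    (hb0 : 0 < b) (hb : b ^ 2 = K + η) : K * b ^ 2 - 1 ≤ η * b ^ (ℓ + 1) := by
  have h1 : s ≤ b := by
    apply le_of_sq_le_sq _ hb0.le
    rw [hs, hb]; linarith
  have h3 : s ^ (ℓ + 1) ≤ b ^ (ℓ + 1) := pow_le_pow_left₀ hs0.le h1 _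
  have h4 := mul_le_mul_of_nonneg_left h3 hη0.le
  rw [hb]
  nlinarith

theorem CmpGen_condC {K : ℝ} {ℓ : ℕ} {s η a : ℝ} (hs0 : 0 < s) (hs : s ^ 2 = K) (hK : 3 ≤ K)
    (hη : η * s ^ (ℓ + 1) = 1015 / 1000 * (K ^ 2 - 1)) (hη0 : 0 < η)
    (h2 : η ≤ 2 / 1000 * K)
    (ha0 : 0 < a) (ha : a ^ 2 = K - η) : η * a ^ ℓ < K * a ^ 2 - 1 := by
  have h1 : a ≤ s := by
    apply le_of_sq_le_sq _ hs0.le
    rw [hs, ha]; linarith
  have h3 : a ^ ℓ ≤ s ^ ℓ := pow_le_pow_left₀ ha0.le h1 _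
  have h4 := mul_le_mul_of_nonneg_left h3 hη0.le
  have h5 : 173 / 100 ≤ s := by nlinarith
  have h6 : η * s ^ ℓ * s = 1015 / 1000 * (K ^ 2 - 1) := by rw [← hη, pow_succ]; ring
  have h7 : 0 ≤ η * s ^ ℓ := by positivity
  have h8 : η * s ^ ℓ * (173 / 100) ≤ 1015 / 1000 * (K ^ 2 - 1) := by
    rw [← h6]; exact mul_le_mul_of_nonneg_left h5 h7
  rw [ha]
  nlinarith

theorem CmpGen_gap {K : ℝ} {ℓ : ℕ} {s η a b : ℝ} (hs0 : 0 < s) (hs : s ^ 2 = K) (hK : 3 ≤ K)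
    (hη : η * s ^ (ℓ + 1) = 1015 / 1000 * (K ^ 2 - 1)) (hη0 : 0 < η)
    (h2 : η ≤ 2 / 1000 * K)
    (ha0 : 0 < a) (ha : a ^ 2 = K - η) (hb0 : 0 < b) (hb : b ^ 2 = K + η) :
    lam b - lam a ≤ 51 / 50 * ((K - 1) ^ 2 * (K + 1) / s ^ (ℓ + 4)) := by
  have hK0 : 0 < K := by linarith
  have hab : a ≤ b := by
    apply le_of_sq_le_sq _ hb0.le
    rw [ha, hb]; linarith
  have hprod : a * b ≤ K := by
    apply le_of_sq_le_sq _ hK0.le
    rw [mul_pow, ha, hb]; nlinarith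
  have hprod2 : K - η ≤ a * b := by
    rw [← ha, sq]; exact mul_le_mul_of_nonneg_left hab ha0.le
  have hsum : 9985 / 10000 * (2 * s) ≤ a + b := by
    apply le_of_sq_le_sq _ (by positivity)
    have e1 : (9985 / 10000 * (2 * s)) ^ 2 = (9985 / 10000) ^ 2 * 4 * K := by rw [← hs]; ring
    have e2 : (a + b) ^ 2 = 2 * K + 2 * (a * b) := by
      have : (a + b) ^ 2 = a ^ 2 + b ^ 2 + 2 * (a * b) := by ring
      rw [this, ha, hb]; ring
    rw [e1, e2]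
    nlinarith
  have e3 : (b - a) * (a + b) = 2 * η := by
    have : (b - a) * (a + b) = b ^ 2 - a ^ 2 := by ring
    rw [this, ha, hb]; ring
  have h3 : (b - a) * (9985 / 10000 * s) ≤ η := by
    have := mul_le_mul_of_nonneg_left hsum (sub_nonneg.2 hab)
    nlinarith
  have e4 : lam b - lam a = (b - a) * (1 - 1 / (a * b)) := by
    unfold lam; field_simp; ring
  have h4 : 1 - 1 / (a * b) ≤ (K - 1) / K := by
    have h5 : 1 / K ≤ 1 / (a * b) := one_div_le_one_div_of_le (by positivity) hprod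
    have e5 : (K - 1) / K = 1 - 1 / K := by field_simp
    rw [e5]; linarith
  have h6 : b - a ≤ η / (9985 / 10000 * s) := by
    rw [le_div_iff₀ (by positivity)]; exact h3
  have h7 : (b - a) * (1 - 1 / (a * b)) ≤ η / (9985 / 10000 * s) * ((K - 1) / K) := by
    calc (b - a) * (1 - 1 / (a * b)) ≤ (b - a) * ((K - 1) / K) :=
          mul_le_mul_of_nonneg_left h4 (sub_nonneg.2 hab)
      _ ≤ _ := mul_le_mul_of_nonneg_right h6 (div_nonneg (by linarith) hK0.le)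
  have e6 : η = 1015 / 1000 * (K ^ 2 - 1) / s ^ (ℓ + 1) := by
    rw [← hη]; field_simp
  rw [e4]
  refine h7.trans ?_
  have e7 : η / (9985 / 10000 * s) * ((K - 1) / K) =
      (1015 / 1000 / (9985 / 10000)) * ((K - 1) ^ 2 * (K + 1) / s ^ (ℓ + 4)) := by
    have e8 : s ^ (ℓ + 4) = s ^ (ℓ + 1) * (s * K) := by rw [← hs]; ring
    rw [e6, e8]
    field_simp
    ring
  rw [e7]
  apply mul_le_mul_of_nonneg_right (by norm_num)
  have : 0 ≤ (K - 1) ^ 2 * (K + 1) := by positivity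
  positivity

theorem CmpGen_gam {n K ℓ : ℕ} {s : ℝ} (hs0 : 0 < s) (hs : s ^ 2 = K) (hn : n = ℓ + 2 * K + 2) :
    gam K n = ((K : ℝ) - 1) ^ 2 * (K + 1) / s ^ (ℓ + 4) := by
  unfold gam
  have e : (K : ℝ) - 1 - (n : ℝ) / 2 = -((ℓ + 4 : ℕ) : ℝ) / 2 := by
    rw [hn]; push_cast; ring
  have e2 : (K : ℝ) ^ (-((ℓ + 4 : ℕ) : ℝ) / 2) = (s ^ (ℓ + 4))⁻¹ := by
    rw [← hs, ← Real.rpow_natCast s 2, ← Real.rpow_mul hs0.le]
    have : ((2 : ℕ) : ℝ) * (-((ℓ + 4 : ℕ) : ℝ) / 2) = -((ℓ + 4 : ℕ) : ℝ) := by push_cast; ring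
    rw [this, Real.rpow_neg hs0.le, Real.rpow_natCast]
  rw [e, e2, ← div_eq_mul_inv]

theorem CmpGen_xx {K : ℕ} {t η : ℝ} (ht : 0 < t) (h : t ^ 2 = K - η) (i : ℕ) :
    xx K t i = (K * t ^ 2 - 1 - η * t ^ (2 * i)) / t ^ i := by
  unfold xx
  have e : t ^ 2 - K = -η := by rw [h]; ring
  rw [e, eq_div_iff (by positivity)]
  have e2 : (1 / t) ^ i * t ^ i = 1 := by
    rw [← mul_pow, one_div_mul_cancel ht.ne', one_pow]
  have e3 : t ^ (2 * i) = t ^ i * t ^ i := by rw [two_mul, pow_add]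
  rw [e3]
  linear_combination (K * t ^ 2 - 1) * e2

theorem CmpGen_prod_ge {K : ℕ} {t η : ℝ} (ht : 1 < t) (h : (t ^ 2 - K) ^ 2 = η ^ 2) {a b ℓ : ℕ}
    (hab : a + b = ℓ) (h0 : 0 ≤ K * t ^ 2 - 1)
    (hc : K * t ^ 2 - 1 ≤ η * t ^ (ℓ + 1)) :
    xx K t a * xx K t b ≤ xx K t (a + 1) * xx K t (b + 1) := by
  have ht0 : 0 < t := by linarith
  have h1 := CmpGen_prod (K := K) ht0.ne' a b
  rw [hab, h] at h1
  have h2 : (K * t ^ 2 - 1) ^ 2 ≤ η ^ 2 * t ^ (2 * ℓ + 2) := by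
    calc (K * t ^ 2 - 1) ^ 2 ≤ (η * t ^ (ℓ + 1)) ^ 2 := pow_le_pow_left₀ h0 hc 2
      _ = _ := by ring
  have h3 : (K * t ^ 2 - 1) ^ 2 * (1 / t) ^ (ℓ + 2) ≤ η ^ 2 * t ^ ℓ := by
    calc (K * t ^ 2 - 1) ^ 2 * (1 / t) ^ (ℓ + 2) ≤
          η ^ 2 * t ^ (2 * ℓ + 2) * (1 / t) ^ (ℓ + 2) :=
          mul_le_mul_of_nonneg_right h2 (by positivity)
      _ = η ^ 2 * t ^ ℓ * (t ^ (ℓ + 2) * (1 / t) ^ (ℓ + 2)) := by
          have : 2 * ℓ + 2 = ℓ + (ℓ + 2) := by ring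
          rw [this, pow_add]; ring
      _ = _ := by
          rw [← mul_pow, mul_one_div_cancel ht0.ne', one_pow, mul_one]
  have h4 : 0 ≤ (t ^ 2 - 1) * (η ^ 2 * t ^ ℓ - (K * t ^ 2 - 1) ^ 2 * (1 / t) ^ (ℓ + 2)) := by
    apply mul_nonneg
    · nlinarith
    · linarith
  linarith

/-- the double comet with `K+1` leaves on both sides -/
theorem cmp_gen {n K : ℕ} (hn : 21 ≤ n) (hK : 3 ≤ K) (hnK : 2 * K + 12 ≤ n) :
    DcLe n (K + 1) (n - 2 * K - 2) (51 / 50 * gam K n) := by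
  obtain ⟨ℓ, hℓ⟩ : ∃ ℓ, n = ℓ + 2 * K + 2 := ⟨n - 2 * K - 2, by omega⟩
  have hℓ10 : 10 ≤ ℓ := by omega
  have hcase : (K = 3 ∧ 13 ≤ ℓ) ∨ (4 ≤ K ∧ 10 ≤ ℓ) := by omega
  have hK3 : (3 : ℝ) ≤ K := by exact_mod_cast hK
  set s : ℝ := Real.sqrt K with hsd
  have hs0 : 0 < s := Real.sqrt_pos.2 (by linarith)
  have hs : s ^ 2 = K := Real.sq_sqrt (by linarith)
  have hsm := CmpGen_small hs0 hs hK hcase
  set η : ℝ := 1015 / 1000 * ((K : ℝ) ^ 2 - 1) / s ^ (ℓ + 1) with hηd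
  have hη : η * s ^ (ℓ + 1) = 1015 / 1000 * ((K : ℝ) ^ 2 - 1) := by
    rw [hηd, div_mul_cancel₀]; positivity
  obtain ⟨hη0, h1, h2⟩ := CmpGen_eta hs0 hs hK3 hℓ10 hsm hη
  set a : ℝ := Real.sqrt (K - η) with had
  set b : ℝ := Real.sqrt (K + η) with hbd
  have ha0 : 0 < a := Real.sqrt_pos.2 (by linarith)
  have hb0 : 0 < b := Real.sqrt_pos.2 (by linarith)
  have ha : a ^ 2 = K - η := Real.sq_sqrt (by linarith)
  have hb : b ^ 2 = K + η := Real.sq_sqrt (by linarith)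
  have ha1 : 1 < a := by nlinarith
  have hb1 : 1 < b := by nlinarith
  have cA := CmpGen_condA hs0 hs hK3 hη hη0 h1 h2 ha0 ha
  have cB := CmpGen_condB hs0 hs hK3 hη hη0 h2 hb0 hb
  have cC := CmpGen_condC hs0 hs hK3 hη hη0 h2 ha0 ha
  have cD := CmpGen_gap hs0 hs hK3 hη hη0 h2 ha0 ha hb0 hb
  rw [← CmpGen_gam hs0 hs hℓ] at cD
  have hKb : 0 < (K : ℝ) * b ^ 2 - 1 := by rw [hb]; nlinarith
  have hKa : 0 < (K : ℝ) * a ^ 2 - 1 := by rw [ha]; nlinarith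
  -- values at b
  have pb : ∀ i, 0 < xx K b i := by
    intro i
    unfold xx
    have e : b ^ 2 - K = η := by rw [hb]; ring
    rw [e]
    positivity
  -- values at a
  have pa : ∀ i, 2 * i ≤ ℓ → 0 < xx K a i := by
    intro i hi
    rw [CmpGen_xx ha0 ha]
    have h3 : a ^ (2 * i) ≤ a ^ ℓ := pow_le_pow_right₀ ha1.le hi
    have h4 := mul_le_mul_of_nonneg_left h3 hη0.le
    apply div_pos _ (by positivity)
    linarith
  have na : ∀ i, ℓ + 1 ≤ 2 * i → xx K a i ≤ 0 := by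
    intro i hi
    rw [CmpGen_xx ha0 ha]
    have h3 : a ^ (ℓ + 1) ≤ a ^ (2 * i) := pow_le_pow_right₀ ha1.le hi
    have h4 := mul_le_mul_of_nonneg_left h3 hη0.le
    apply div_nonpos_of_nonpos_of_nonneg _ (by positivity)
    linarith
  have na' : ∀ i, ℓ + 2 ≤ 2 * i → xx K a i < 0 := by
    intro i hi
    rw [CmpGen_xx ha0 ha]
    have h3 : a ^ (ℓ + 1) < a ^ (2 * i) := pow_lt_pow_right₀ ha1 (by omega)
    have h4 := mul_lt_mul_of_pos_left h3 hη0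
    apply div_neg_of_neg_of_pos _ (by positivity)
    linarith
  have hprodB : ∀ i j, i + j = ℓ → xx K b i * xx K b j ≤ xx K b (i + 1) * xx K b (j + 1) := by
    intro i j hij
    refine CmpGen_prod_ge hb1 ?_ hij hKb.le cB
    rw [hb]; ring
  have hprodA : ∀ i j, i + j = ℓ → xx K a i * xx K a j ≤ xx K a (i + 1) * xx K a (j + 1) := by
    intro i j hij
    refine CmpGen_prod_ge ha1 ?_ hij hKa.le cA
    rw [ha]; ring
  have main : ∀ j j' : ℕ, j + j' + 2 = ℓ → (j' = j ∨ j' = j + 1) →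
      DcLe n (K + 1) (j + j' + 2) (lam b - lam a) := by
    intro j j' hjj hor
    obtain ⟨p1, v1⟩ := comet_val (K := K) hb1 j (fun i _ _ => pb i)
    obtain ⟨p2, v2⟩ := comet_val (K := K) hb1 j' (fun i _ _ => pb i)
    obtain ⟨q1, w1⟩ := comet_val (K := K) ha1 j (fun i _ hi => pa i (by omega))
    have x1 := pb (j + 1)
    have x2 := pb (j + 2)
    have x3 := pb (j' + 1)
    have x4 := pb (j' + 2)
    apply cg_gap (by omega) p1 p2
    · rw [v1]; positivity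
    · rw [v2]; positivity
    · rw [v1, v2, div_mul_div_comm, one_le_div (by positivity)]
      exact hprodB (j + 1) (j' + 1) (by omega)
    · rcases hor with h | h
      · left
        subst h
        have y1 := pa (j' + 1) (by omega)
        have y2 := na' (j' + 2) (by omega)
        refine ⟨q1, q1, ?_, ?_, ?_⟩
        · rw [w1]; exact div_neg_of_neg_of_pos y2 y1
        · rw [w1]; exact div_neg_of_neg_of_pos y2 y1
        · rw [w1, div_mul_div_comm, one_le_div (by positivity)]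
          exact hprodA (j' + 1) (j' + 1) (by omega)
      · right
        have y1 := pa (j + 1) (by omega)
        have y2 := na (j + 2) (by omega)
        refine ⟨q1, ?_, j, h, q1, ?_⟩
        · rw [w1]; exact div_nonpos_of_nonpos_of_nonneg y2 y1.le
        · rw [w1]; exact div_nonpos_of_nonpos_of_nonneg y2 y1.le
  have key : DcLe n (K + 1) ℓ (lam b - lam a) := by
    rcases Nat.even_or_odd' ℓ with ⟨m, hm | hm⟩
    · have := main (m - 1) (m - 1) (by omega) (Or.inl rfl)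
      have e : m - 1 + (m - 1) + 2 = ℓ := by omega
      rwa [e] at this
    · have := main (m - 1) m (by omega) (Or.inr (by omega))
      have e : m - 1 + m + 2 = ℓ := by omega
      rwa [e] at this
  have e : n - 2 * K - 2 = ℓ := by omega
  rw [e]
  intro hC i j hi hj
  exact (key hC i j hi hj).trans cD

end Pool.Agent.SG
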