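import Mathlib

set_option autoImplicit false
open Classical

/-! MP_8b9a2e_co: trees with minimum adjacency spectral gap. Basic definitions. -/

namespace Pool.Agent.SG

/-- finite ordered rooted forests; `cons c r` = first tree has the forest of children `c`, `r` = the other trees -/
inductive Fo : Type
  | nil : Fo
  | cons (c r : Fo) : Fo
  deriving DecidableEq

/-- number of vertices -/
def Fo.size : Fo → ℕ
  | .nil => 0
  | .cons c r => 1 + c.size + r.size

/-- sum over the trees of the forest of the resolvent entries at the roots -/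
noncomputable def gs (l : ℝ) : Fo → ℝ
  | .nil => 0
  | .cons c r => 1 / (l - gs l c) + gs l r

/-- all (sub)trees of the forest have positive `φ = l - gs l c` -/
def PP (l : ℝ) : Fo → Prop
  | .nil => True
  | .cons c r => PP l c ∧ 0 < l - gs l c ∧ PP l r

/-- minus the derivative of `gs` -/
noncomputable def ds (l : ℝ) : Fo → ℝ
  | .nil => 0
  | .cons c r => (1 + ds l c) / (l - gs l c) ^ 2 + ds l r

/-- `k` trees with one vertex -/
def leaves : ℕ → Fo
  | 0 => .nil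
  | k + 1 => .cons .nil (leaves k)

/-- `k` leaves at the end of a path with `j` vertices -/
def comet (k : ℕ) : ℕ → Fo
  | 0 => leaves k
  | j + 1 => .cons (comet k j) .nil

/-- `c` is the forest of children of some tree of the forest -/
def Mem (c : Fo) : Fo → Prop
  | .nil => False
  | .cons d r => c = d ∨ Mem c r

/-- spectral data of a tree with `n` vertices at an edge; `f`, `h` are the forests below the two ends;
`ν` the largest and `μ` the second largest eigenvalue -/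
structure Sp (n : ℕ) (f h : Fo) (ν μ : ℝ) : Prop where
  size : f.size + h.size + 2 = n
  lt : μ < ν
  le : ν ≤ n
  ppf : PP ν f
  pph : PP ν h
  posf : 0 < ν - gs ν f
  posh : 0 < ν - gs ν h
  prod : (ν - gs ν f) * (ν - gs ν h) = 1
  ev : (PP μ f ∧ PP μ h ∧ μ - gs μ f < 0 ∧ μ - gs μ h < 0 ∧
          (μ - gs μ f) * (μ - gs μ h) = 1) ∨
       (PP μ f ∧ μ - gs μ f = 0 ∧ ∃ c, Mem c h ∧ PP μ c ∧ μ - gs μ c = 0)

/-- the double comet of the frozen statement -/
def CG (n k ℓ : ℕ) : SimpleGraph (Fin n) :=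
  SimpleGraph.fromRel (fun a b : Fin n =>
    (a.val + 1 = b.val ∧ b.val < ℓ) ∨
    (ℓ ≤ b.val ∧ b.val < ℓ + k ∧ a.val = 0) ∨
    (ℓ + k ≤ b.val ∧ a.val + 1 = ℓ))

/-- the gap of the double comet is at most `x` -/
def DcLe (n k ℓ : ℕ) (x : ℝ) : Prop :=
  ∀ (hC : ((CG n k ℓ).adjMatrix ℝ).IsHermitian) (i j : Fin (Fintype.card (Fin n))),
    i.val = 0 → j.val = 1 → hC.eigenvalues₀ i - hC.eigenvalues₀ j ≤ x

/-- `f`, `h` are the two sides of a double comet -/
def IsDC (f h : Fo) : Prop := ∃ k j j' : ℕ, f = comet k j ∧ h = comet k j'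

/-! parameters: `t > 1`, `l = t + 1/t`, `y = t^2` -/

noncomputable def lam (t : ℝ) : ℝ := t + 1 / t
noncomputable def Ac (t : ℝ) : ℝ := 2 * t ^ 4 / (t ^ 4 - 1)
/-- the exponent function -/
noncomputable def ee (t p : ℝ) : ℝ := 1 + lam t ^ 2 - lam t * (p + 1 / p)
noncomputable def FF (y r : ℝ) : ℝ := 1 + (y - 1) * (y + 1 - r) / (y * r ^ 2)

/-- all trees of the forest are light: `φ ≥ 1/t` at `l = lam t` -/
def AL (t : ℝ) : Fo → Prop
  | .nil => True
  | .cons c r => 1 / t ≤ lam t - gs (lam t) c ∧ AL t r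

noncomputable def Wf (t : ℝ) (f : Fo) : ℝ := ds (lam t) f - gs (lam t) f / lam t + Ac t

/-- the potential inequality with constant `Q` -/
def Cl (t : ℝ) (f : Fo) (Q : ℝ) : Prop :=
  Ac t ≤ Q ∧ (t - 1 / t) ^ 2 * ds (lam t) f + lam t * gs (lam t) f ≤
    2 + Q * (gs (lam t) f - 1 / t) ^ 2

noncomputable def Lf (t a c : ℝ) : ℝ :=
  if 1 / t ≤ c then (t - 1 / t) * t * (a + c) / ((t + a) * (lam t - c))
  else (t - 1 / t) ^ 2 * (a + c) / ((t + a) * (t - c))

noncomputable def Mf (y : ℝ) : ℝ := 4 * y ^ 3 * (y + 1) / (y ^ 2 + y + 1) ^ 2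
noncomputable def Mlow (y : ℝ) : ℝ := if 2 ≤ y then Mf y else 6 / 5
noncomputable def gam (y : ℝ) (n : ℕ) : ℝ :=
  (y - 1) ^ 2 * (y + 1) * y ^ (y - 1 - (n : ℝ) / 2)

/-- error factor for passing from `t1` to `t ≥ t1` -/
noncomputable def Er (t t1 : ℝ) : ℝ :=
  (t ^ 2) ^ (t ^ 2 - t1 ^ 2) * ((t ^ 2 - 1) / (t1 ^ 2 - 1)) ^ 3 * ((t ^ 2 + 1) / (t1 ^ 2 + 1))

/-- the possible values of the class factor; `y1 ≤ y` -/
def Zc (y y1 Z : ℝ) : Prop :=
  (y1 < 2 ∧ Z = 1) ∨ (2 ≤ y1 ∧ Z = (3 / (2 * y)) ^ 2) ∨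
  (2 ≤ y1 ∧ ∃ K : ℕ, y1 ≤ K ∧ Z = 3 / (2 * y) * y ^ (y - (K : ℝ)))

/-- constant for the final comparison -/
noncomputable def cE (y : ℝ) : ℝ := if y < 2 then 11 / 10 else 26 / 25

end Pool.Agent.SG
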