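import Pool.Agent.Lib.MP_8b9a2e_co.Defs

set_option autoImplicit false

namespace Pool.Agent.SG

lemma errBound_g0 {n : ℕ} (hn : 21 ≤ n) : 147 * (3 : ℝ) ^ (-(n : ℝ) / 2) ≤ 144 / 100000 := by
  have h1 : (3 : ℝ) ^ (-(n : ℝ) / 2) ≤ (3 : ℝ) ^ (-(21 : ℝ) / 2) := by
    apply Real.rpow_le_rpow_of_exponent_le (by norm_num)
    have : (21 : ℝ) ≤ n := by exact_mod_cast hn
    linarith
  set r := (3 : ℝ) ^ (-(21 : ℝ) / 2) with hr
  have hr0 : 0 < r := Real.rpow_pos_of_pos (by norm_num) _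
  have hr2 : r * r = 1 / 10460353203 := by
    rw [hr, ← Real.rpow_add (by norm_num)]
    have : (-(21 : ℝ) / 2 + -21 / 2) = -((21 : ℕ) : ℝ) := by norm_num
    rw [this, Real.rpow_neg (by norm_num), Real.rpow_natCast]
    norm_num
  have hr3 : r ≤ 144 / 14700000 := by
    by_contra h
    push Not at h
    have : (144 / 14700000 : ℝ) * (144 / 14700000) < r * r := by
      apply mul_lt_mul'' h h <;> norm_num
    rw [hr2] at this
    norm_num at this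
  linarith

lemma errBound_exp3 {s : ℝ} (hs : 0 ≤ s) : (1 + s / 3) ^ 3 ≤ (3 : ℝ) ^ s := by
  have h1 : (1 : ℝ) ≤ Real.log 3 := by
    rw [Real.le_log_iff_exp_le (by norm_num)]
    have := Real.exp_one_lt_d9
    linarith
  have h2 : (1 + s / 3) ≤ (3 : ℝ) ^ (s / 3) := by
    rw [Real.rpow_def_of_pos (by norm_num)]
    have h3 := Real.add_one_le_exp (s / 3)
    have h4 : Real.exp (s / 3) ≤ Real.exp (Real.log 3 * (s / 3)) := by
      apply Real.exp_le_exp.2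
      nlinarith
    linarith
  have h5 : ((3 : ℝ) ^ (s / 3)) ^ 3 = (3 : ℝ) ^ s := by
    rw [← Real.rpow_natCast, ← Real.rpow_mul (by norm_num)]
    congr 1
    push_cast
    ring
  rw [← h5]
  exact pow_le_pow_left₀ (by positivity) h2 3

lemma errBound_g1 {n : ℕ} {x : ℝ} (hx : 17 / 2 ≤ x) (h : x ≤ (n : ℝ) / 2 - 2) :
    147 * (3 : ℝ) ^ (-(n : ℝ) / 2) * (1 + (x - 17 / 2) / 3) ^ 3 ≤ 144 / 100000 := by
  have h1 : (3 : ℝ) ^ (-(n : ℝ) / 2) ≤ (3 : ℝ) ^ (-(21 : ℝ) / 2 + -(x - 17 / 2)) := by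
    apply Real.rpow_le_rpow_of_exponent_le (by norm_num)
    linarith
  rw [Real.rpow_add (by norm_num)] at h1
  have h2 := errBound_exp3 (s := x - 17 / 2) (by linarith)
  have h3 : (3 : ℝ) ^ (-(x - 17 / 2)) * (1 + (x - 17 / 2) / 3) ^ 3 ≤ 1 := by
    rw [Real.rpow_neg (by norm_num)]
    rw [inv_mul_le_iff₀ (Real.rpow_pos_of_pos (by norm_num) _)]
    linarith
  have h4 := errBound_g0 (n := 21) (le_refl _)
  push_cast at h4
  have hA : 0 < (3 : ℝ) ^ (-(21 : ℝ) / 2) := Real.rpow_pos_of_pos (by norm_num) _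
  have hpos : 0 ≤ (1 + (x - 17 / 2) / 3) ^ 3 := by
    have : 0 ≤ (x - 17 / 2) := by linarith
    positivity
  calc 147 * (3 : ℝ) ^ (-(n : ℝ) / 2) * (1 + (x - 17 / 2) / 3) ^ 3
      ≤ 147 * ((3 : ℝ) ^ (-(21 : ℝ) / 2) * (3 : ℝ) ^ (-(x - 17 / 2))) * (1 + (x - 17 / 2) / 3) ^ 3 := by
        apply mul_le_mul_of_nonneg_right _ hpos
        linarith
    _ = 147 * (3 : ℝ) ^ (-(21 : ℝ) / 2) * ((3 : ℝ) ^ (-(x - 17 / 2)) * (1 + (x - 17 / 2) / 3) ^ 3) := by ring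
    _ ≤ 147 * (3 : ℝ) ^ (-(21 : ℝ) / 2) * 1 := by
        apply mul_le_mul_of_nonneg_left h3 (by positivity)
    _ ≤ _ := by linarith

lemma errBound_Er {x y B L : ℝ} (hx : 36 / 25 ≤ x) (hxy : x ≤ y) (hL : Real.log y ≤ L)
    (hB : L * (y - x) + 3 * ((y - x) / (x - 1)) + (y - x) / (x + 1) ≤ B) (hB1 : B ≤ 1) :
    y ^ (y - x) * ((y - 1) / (x - 1)) ^ 3 * ((y + 1) / (x + 1)) ≤ 1 + B + B ^ 2 := by
  have hx1 : 0 < x - 1 := by linarith
  have hx2 : 0 < x + 1 := by linarith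
  have hy0 : 0 < y := by linarith
  have hyx : 0 ≤ y - x := by linarith
  have e1 : (y - 1) / (x - 1) = (y - x) / (x - 1) + 1 := by field_simp; ring
  have e2 : (y + 1) / (x + 1) = (y - x) / (x + 1) + 1 := by field_simp; ring
  have h1 : y ^ (y - x) ≤ Real.exp (L * (y - x)) := by
    rw [Real.rpow_def_of_pos hy0]
    exact Real.exp_le_exp.2 (mul_le_mul_of_nonneg_right hL hyx)
  have h2 : ((y - 1) / (x - 1)) ^ 3 ≤ Real.exp (3 * ((y - x) / (x - 1))) := by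
    have h3 := Real.add_one_le_exp ((y - x) / (x - 1))
    have h4 : Real.exp (3 * ((y - x) / (x - 1))) = Real.exp ((y - x) / (x - 1)) ^ 3 := by
      rw [← Real.exp_nat_mul]; norm_num
    rw [h4, e1]
    exact pow_le_pow_left₀ (by positivity) h3 3
  have h3 : (y + 1) / (x + 1) ≤ Real.exp ((y - x) / (x + 1)) := by
    rw [e2]; exact Real.add_one_le_exp _
  have h4 : y ^ (y - x) * ((y - 1) / (x - 1)) ^ 3 * ((y + 1) / (x + 1)) ≤
      Real.exp (L * (y - x)) * Real.exp (3 * ((y - x) / (x - 1))) * Real.exp ((y - x) / (x + 1)) := by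
    have p1 : 0 ≤ ((y - 1) / (x - 1)) ^ 3 := by
      rw [e1]; positivity
    have p2 : 0 ≤ (y + 1) / (x + 1) := by positivity
    gcongr
  rw [← Real.exp_add, ← Real.exp_add] at h4
  refine h4.trans ?_
  have hlog0 : 0 ≤ Real.log y := Real.log_nonneg (by linarith)
  have hB0 : 0 ≤ B := by
    have : 0 ≤ L * (y - x) + 3 * ((y - x) / (x - 1)) + (y - x) / (x + 1) := by
      have : 0 ≤ L := hlog0.trans hL
      positivity
    linarith
  have h5 : Real.exp (L * (y - x) + 3 * ((y - x) / (x - 1)) + (y - x) / (x + 1)) ≤ Real.exp B :=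
    Real.exp_le_exp.2 hB
  refine h5.trans ?_
  have h6 := Real.abs_exp_sub_one_sub_id_le (x := B) (by rw [abs_of_nonneg hB0]; exact hB1)
  have h7 := (abs_le.1 h6).2
  linarith

lemma errBound_p {T a b c : ℝ} (h1 : a ≤ T) (h2 : T ≤ b) (hT : 0 ≤ T)
    (hc : c = 1 / 80 ∧ a = 6 / 5 ∧ b = 2916 / 1000 ∨ c = 1134 / 100000 ∧ a = 6 / 5 ∧ b = 141 / 100 ∨
      c = 8195 / 1000000 ∧ a = 1409 / 1000 ∧ b = 1733 / 1000 ∨
      c = 954 / 100000 ∧ a = 1732 / 1000 ∧ b = 2916 / 1000) :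
    144 / 100000 * T ^ 2 * (2 * T + 5 / 1000) ≤ c * (T ^ 2 - 1) := by
  have h3 := mul_nonneg (sub_nonneg.2 h1) (sub_nonneg.2 h2)
  have h4 := mul_nonneg h3 hT
  rcases hc with ⟨rfl, rfl, rfl⟩ | ⟨rfl, rfl, rfl⟩ | ⟨rfl, rfl, rfl⟩ | ⟨rfl, rfl, rfl⟩ <;> nlinarith

lemma errBound_D {D x : ℝ} (hx : 36 / 25 ≤ x) (hDx : D * (x - 1) ≤ 144 / 100000 * x) :
    D ≤ 5 / 1000 := by
  by_contra h
  push Not at h
  have := mul_lt_mul_of_pos_right h (by linarith : (0:ℝ) < x - 1)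
  linarith

lemma errBound_D2 {D x g : ℝ} (hx : 17 / 2 ≤ x) (hDx : D * (x - 1) ≤ g * x) (hg : 0 ≤ g) :
    D ≤ 1134 / 1000 * g := by
  by_contra h
  push Not at h
  have h1 := mul_lt_mul_of_pos_right h (by linarith : (0:ℝ) < x - 1)
  have h2 := mul_le_mul_of_nonneg_left hx hg
  nlinarith

lemma errBound_gt {g t : ℝ} (hg0 : 0 ≤ g) (hgg : g ≤ 144 / 100000) (ht : 0 < t) (hy : t ^ 2 ≤ 86 / 10) :
    g * (t * (1 + t ^ 4)) ≤ 1 := by
  have ht2 : t ≤ 294 / 100 := by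
    have : t ^ 2 ≤ (294 / 100) ^ 2 := by linarith
    exact le_of_sq_le_sq this (by norm_num)
  have h4 : t * (1 + t ^ 4) ≤ 294 / 100 * (1 + (86 / 10) ^ 2) := by
    have : t ^ 4 ≤ (86 / 10) ^ 2 := by
      have : t ^ 4 = (t ^ 2) ^ 2 := by ring
      rw [this]
      exact pow_le_pow_left₀ (by positivity) hy 2
    apply mul_le_mul ht2 (by linarith) (by positivity) (by norm_num)
  calc g * (t * (1 + t ^ 4)) ≤ 144 / 100000 * (294 / 100 * (1 + (86 / 10) ^ 2)) :=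
        mul_le_mul hgg h4 (by positivity) (by norm_num)
    _ ≤ 1 := by norm_num

lemma errBound_tσ {x σ T c : ℝ} (hc : 0 ≤ c) (hσ1 : 1 ≤ σ) (h : T ^ 2 ≤ x * σ) (hx : 0 ≤ x) (hxc : x ≤ c ^ 2) :
    T ≤ c * σ := by
  have h1 : T ^ 2 ≤ (c * σ) ^ 2 := by
    have h2 : x * σ ≤ c ^ 2 * (σ * σ) := by
      have : σ ≤ σ * σ := by nlinarith
      calc x * σ ≤ c ^ 2 * σ := mul_le_mul_of_nonneg_right hxc (by linarith)
        _ ≤ c ^ 2 * (σ * σ) := mul_le_mul_of_nonneg_left this (by positivity)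
    calc T ^ 2 ≤ x * σ := h
      _ ≤ c ^ 2 * (σ * σ) := h2
      _ = _ := by ring
  exact le_of_sq_le_sq h1 (by positivity)

lemma errBound_gtσ {g t σ : ℝ} (hg0 : 0 ≤ g) (hgσ : g * σ ^ 3 ≤ 144 / 100000) (hσ1 : 1 ≤ σ) (ht : 0 < t)
    (hyσ : t ^ 2 ≤ 85125 / 10000 * σ) : g * (t * (1 + t ^ 4)) ≤ 1 := by
  have ht3 : t ≤ 2918 / 1000 * σ := errBound_tσ (by norm_num) hσ1 hyσ (by norm_num) (by norm_num)
  have h5 : 1 + t ^ 4 ≤ 74 * σ ^ 2 := by
    have e : t ^ 4 = (t ^ 2) ^ 2 := by ring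
    have h6 : (t ^ 2) ^ 2 ≤ (85125 / 10000 * σ) ^ 2 := pow_le_pow_left₀ (by positivity) hyσ 2
    have h7 : 1 ≤ σ ^ 2 := by nlinarith
    rw [e]
    have h8 : (85125 / 10000 * σ) ^ 2 = (85125 / 10000) ^ 2 * σ ^ 2 := by ring
    rw [h8] at h6
    linarith
  have h6 : t * (1 + t ^ 4) ≤ 2918 / 1000 * σ * (74 * σ ^ 2) :=
    mul_le_mul ht3 h5 (by positivity) (by positivity)
  have h7 : g * (t * (1 + t ^ 4)) ≤ g * (2918 / 1000 * σ * (74 * σ ^ 2)) :=
    mul_le_mul_of_nonneg_left h6 hg0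
  have h8 : g * (2918 / 1000 * σ * (74 * σ ^ 2)) = 2918 / 1000 * 74 * (g * σ ^ 3) := by ring
  rw [h8] at h7
  linarith

set_option maxHeartbeats 4000000 in
theorem err_bound {n : ℕ} (hn : 21 ≤ n) {t t1 : ℝ} (h1 : 6 / 5 ≤ t1) (h2 : t1 ≤ t)
    (h3 : t1 ^ 2 ≤ (n : ℝ) / 2 - 2) (hg : lam t - lam t1 ≤ 147 * (3 : ℝ) ^ (-(n : ℝ) / 2)) :
    t ^ 2 - t1 ^ 2 ≤ 1 / 80 ∧ (lam t - lam t1) * (t * (1 + t ^ 4)) ≤ 1 ∧
      Er t t1 ≤ 11 / 10 ∧ (2 ≤ t ^ 2 → Er t t1 ≤ 26 / 25) := by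
  have ht1 : 0 < t1 := by linarith
  have ht : 0 < t := by linarith
  obtain ⟨D, hD⟩ : ∃ D, D = t - t1 := ⟨_, rfl⟩
  have hD0 : 0 ≤ D := by linarith
  have htD : t = t1 + D := by linarith
  obtain ⟨g, hgd⟩ : ∃ g, g = lam t - lam t1 := ⟨_, rfl⟩
  have hx : (36 : ℝ) / 25 ≤ t1 ^ 2 := by nlinarith
  -- D (x - 1) ≤ g x
  have hDg : D * (t1 ^ 2 - 1) ≤ g * t1 ^ 2 := by
    have e : g * (t * t1) = D * (t * t1 - 1) := by
      rw [hgd, hD]; unfold lam; field_simp; ring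
    have htt : t1 ^ 2 ≤ t * t1 := by nlinarith
    have h4 : D * (t1 ^ 2 - 1) * (t * t1) ≤ g * t1 ^ 2 * (t * t1) := by
      have : g * t1 ^ 2 * (t * t1) = D * (t * t1 - 1) * t1 ^ 2 := by rw [← e]; ring
      rw [this]
      have := mul_nonneg hD0 (sub_nonneg.2 htt)
      nlinarith
    exact le_of_mul_le_mul_right h4 (by positivity)
  have hg0 : 0 ≤ g := by
    have : 0 ≤ D * (t1 ^ 2 - 1) := mul_nonneg hD0 (by linarith)
    by_contra h
    push Not at h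
    have : g * t1 ^ 2 < 0 := mul_neg_of_neg_of_pos h (by positivity)
    linarith
  have hgg : g ≤ 144 / 100000 := by
    rw [hgd]; exact hg.trans (errBound_g0 hn)
  have hDx : D * (t1 ^ 2 - 1) ≤ 144 / 100000 * t1 ^ 2 :=
    hDg.trans (mul_le_mul_of_nonneg_right hgg (by positivity))
  have hD1 : D ≤ 5 / 1000 := errBound_D hx hDx
  have hθ : t ^ 2 - t1 ^ 2 = D * (2 * t1 + D) := by rw [htD]; ring
  have hθ0 : 0 ≤ t ^ 2 - t1 ^ 2 := by rw [hθ]; positivity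
  have hθx : (t ^ 2 - t1 ^ 2) * (t1 ^ 2 - 1) ≤ 144 / 100000 * t1 ^ 2 * (2 * t1 + 5 / 1000) := by
    rw [hθ]
    have h4 : D * (t1 ^ 2 - 1) * (2 * t1 + D) ≤ 144 / 100000 * t1 ^ 2 * (2 * t1 + D) :=
      mul_le_mul_of_nonneg_right hDx (by positivity)
    have h5 : 144 / 100000 * t1 ^ 2 * (2 * t1 + D) ≤ 144 / 100000 * t1 ^ 2 * (2 * t1 + 5 / 1000) :=
      mul_le_mul_of_nonneg_left (by linarith) (by positivity)
    linarith
  have hlog2 := Real.log_two_lt_d9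
  have hEr : Er t t1 = (t ^ 2) ^ (t ^ 2 - t1 ^ 2) * ((t ^ 2 - 1) / (t1 ^ 2 - 1)) ^ 3 *
      ((t ^ 2 + 1) / (t1 ^ 2 + 1)) := rfl
  have hxy : t1 ^ 2 ≤ t ^ 2 := by linarith
  have hx1 : 0 < t1 ^ 2 - 1 := by linarith
  have hx2 : 0 < t1 ^ 2 + 1 := by linarith
  -- reduction
  suffices hmain : t ^ 2 - t1 ^ 2 ≤ 1 / 80 ∧ g * (t * (1 + t ^ 4)) ≤ 1 ∧
      Er t t1 ≤ 11 / 10 ∧ (19875 / 10000 ≤ t1 ^ 2 → Er t t1 ≤ 26 / 25) by
    obtain ⟨a1, a2, a3, a4⟩ := hmain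
    refine ⟨a1, ?_, a3, fun h => a4 (by linarith)⟩
    rw [← hgd]; exact a2
  have hcase12 : t1 ^ 2 ≤ 17 / 2 → t ^ 2 - t1 ^ 2 ≤ 1 / 80 ∧ g * (t * (1 + t ^ 4)) ≤ 1 := by
    intro hx8
    have hT : t1 ≤ 2916 / 1000 := le_of_sq_le_sq (by norm_num; linarith) (by norm_num)
    have hp : 144 / 100000 * t1 ^ 2 * (2 * t1 + 5 / 1000) ≤ 1 / 80 * (t1 ^ 2 - 1) :=
      errBound_p h1 hT ht1.le (by norm_num)
    have hθ1 : t ^ 2 - t1 ^ 2 ≤ 1 / 80 :=
      le_of_mul_le_mul_right (hθx.trans hp) hx1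
    exact ⟨hθ1, errBound_gt hg0 hgg ht (by linarith)⟩
  rcases le_total (t1 ^ 2) (17 / 2) with hx8 | hx8
  · obtain ⟨hθ1, hgt⟩ := hcase12 hx8
    have hT : t1 ≤ 2916 / 1000 := le_of_sq_le_sq (by norm_num; linarith) (by norm_num)
    rcases le_total (t1 ^ 2) (19875 / 10000) with hxa | hxa
    · -- case I
      have hTa : t1 ≤ 141 / 100 := le_of_sq_le_sq (by norm_num; linarith) (by norm_num)
      have hp : 144 / 100000 * t1 ^ 2 * (2 * t1 + 5 / 1000) ≤ 1134 / 100000 * (t1 ^ 2 - 1) :=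
        errBound_p h1 hTa ht1.le (by norm_num)
      have hθ2 : t ^ 2 - t1 ^ 2 ≤ 1134 / 100000 := le_of_mul_le_mul_right (hθx.trans hp) hx1
      have hL : Real.log (t ^ 2) ≤ 6932 / 10000 := by
        have : Real.log (t ^ 2) ≤ Real.log 2 := Real.log_le_log (by positivity) (by linarith)
        linarith
      have hB : 6932 / 10000 * (t ^ 2 - t1 ^ 2) + 3 * ((t ^ 2 - t1 ^ 2) / (t1 ^ 2 - 1)) +
          (t ^ 2 - t1 ^ 2) / (t1 ^ 2 + 1) ≤ 9 / 100 := by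
        have b1 : (t ^ 2 - t1 ^ 2) / (t1 ^ 2 - 1) ≤ (1134 / 100000) / (44 / 100) := by
          apply div_le_div₀ (by norm_num) hθ2 (by norm_num) (by linarith)
        have b2 : (t ^ 2 - t1 ^ 2) / (t1 ^ 2 + 1) ≤ (1134 / 100000) / (244 / 100) := by
          apply div_le_div₀ (by norm_num) hθ2 (by norm_num) (by linarith)
        norm_num at b1 b2
        linarith
      have hfin := errBound_Er hx hxy hL hB (by norm_num)
      refine ⟨hθ1, hgt, ?_, ?_⟩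
      · rw [hEr]; linarith
      · intro h
        have hp2 : 144 / 100000 * t1 ^ 2 * (2 * t1 + 5 / 1000) ≤ 819 / 100000 * (t1 ^ 2 - 1) := by
          have e : t1 ^ 2 = 19875 / 10000 := le_antisymm hxa h
          rw [e]; linarith
        have hθ3 : t ^ 2 - t1 ^ 2 ≤ 819 / 100000 := le_of_mul_le_mul_right (hθx.trans hp2) hx1
        have hB2 : 6932 / 10000 * (t ^ 2 - t1 ^ 2) + 3 * ((t ^ 2 - t1 ^ 2) / (t1 ^ 2 - 1)) +
            (t ^ 2 - t1 ^ 2) / (t1 ^ 2 + 1) ≤ 38 / 1000 := by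
          have b1 : (t ^ 2 - t1 ^ 2) / (t1 ^ 2 - 1) ≤ (819 / 100000) / (9875 / 10000) := by
            apply div_le_div₀ (by norm_num) hθ3 (by norm_num) (by linarith)
          have b2 : (t ^ 2 - t1 ^ 2) / (t1 ^ 2 + 1) ≤ (819 / 100000) / (29875 / 10000) := by
            apply div_le_div₀ (by norm_num) hθ3 (by norm_num) (by linarith)
          norm_num at b1 b2
          linarith
        have hfin2 := errBound_Er hx hxy hL hB2 (by norm_num)
        rw [hEr]; linarith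
    · -- x ≥ 1.9875
      have hTa : 1409 / 1000 ≤ t1 := le_of_sq_le_sq (by norm_num; linarith) ht1.le
      suffices hB : ∃ L B : ℝ, Real.log (t ^ 2) ≤ L ∧ L * (t ^ 2 - t1 ^ 2) +
          3 * ((t ^ 2 - t1 ^ 2) / (t1 ^ 2 - 1)) + (t ^ 2 - t1 ^ 2) / (t1 ^ 2 + 1) ≤ B ∧ B ≤ 38 / 1000 by
        obtain ⟨L, B, hL, hB, hB2⟩ := hB
        have hfin := errBound_Er hx hxy hL (hB.trans hB2) (by norm_num)
        refine ⟨hθ1, hgt, ?_, fun _ => ?_⟩
        · rw [hEr]; linarith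
        · rw [hEr]; linarith
      rcases le_total (t1 ^ 2) 3 with hx3 | hx3
      · have hTb : t1 ≤ 1733 / 1000 := le_of_sq_le_sq (by norm_num; linarith) (by norm_num)
        have hp : 144 / 100000 * t1 ^ 2 * (2 * t1 + 5 / 1000) ≤ 8195 / 1000000 * (t1 ^ 2 - 1) :=
          errBound_p hTa hTb ht1.le (by norm_num)
        have hθ2 : t ^ 2 - t1 ^ 2 ≤ 8195 / 1000000 := le_of_mul_le_mul_right (hθx.trans hp) hx1
        refine ⟨11994 / 10000, 38 / 1000, ?_, ?_, le_refl _⟩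
        · have e : t ^ 2 = 2 * (t ^ 2 / 2) := by ring
          rw [e, Real.log_mul (by norm_num) (by positivity)]
          have := Real.log_le_sub_one_of_pos (x := t ^ 2 / 2) (by positivity)
          linarith
        · have b1 : (t ^ 2 - t1 ^ 2) / (t1 ^ 2 - 1) ≤ (8195 / 1000000) / (9875 / 10000) := by
            apply div_le_div₀ (by norm_num) hθ2 (by norm_num) (by linarith)
          have b2 : (t ^ 2 - t1 ^ 2) / (t1 ^ 2 + 1) ≤ (8195 / 1000000) / (29875 / 10000) := by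
            apply div_le_div₀ (by norm_num) hθ2 (by norm_num) (by linarith)
          norm_num at b1 b2
          linarith
      · have hTb : 1732 / 1000 ≤ t1 := le_of_sq_le_sq (by norm_num; linarith) ht1.le
        have hp : 144 / 100000 * t1 ^ 2 * (2 * t1 + 5 / 1000) ≤ 954 / 100000 * (t1 ^ 2 - 1) :=
          errBound_p hTb hT ht1.le (by norm_num)
        have hθ2 : t ^ 2 - t1 ^ 2 ≤ 954 / 100000 := le_of_mul_le_mul_right (hθx.trans hp) hx1
        refine ⟨21438 / 10000, 38 / 1000, ?_, ?_, le_refl _⟩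
        · have e : t ^ 2 = 2 * (2 * (2 * (t ^ 2 / 8))) := by ring
          rw [e, Real.log_mul (by norm_num) (by positivity), Real.log_mul (by norm_num) (by positivity),
            Real.log_mul (by norm_num) (by positivity)]
          have := Real.log_le_sub_one_of_pos (x := t ^ 2 / 8) (by positivity)
          linarith
        · have b1 : (t ^ 2 - t1 ^ 2) / (t1 ^ 2 - 1) ≤ (954 / 100000) / 2 := by
            apply div_le_div₀ (by norm_num) hθ2 (by norm_num) (by linarith)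
          have b2 : (t ^ 2 - t1 ^ 2) / (t1 ^ 2 + 1) ≤ (954 / 100000) / 4 := by
            apply div_le_div₀ (by norm_num) hθ2 (by norm_num) (by linarith)
          norm_num at b1 b2
          linarith
  · -- x ≥ 17/2
    obtain ⟨σ, hσ⟩ : ∃ σ, σ = 1 + (t1 ^ 2 - 17 / 2) / 3 := ⟨_, rfl⟩
    have hσ1 : 1 ≤ σ := by linarith
    have hgσ : g * σ ^ 3 ≤ 144 / 100000 := by
      have h4 := errBound_g1 hx8 h3
      rw [← hσ] at h4
      have h5 : g * σ ^ 3 ≤ 147 * (3 : ℝ) ^ (-(n : ℝ) / 2) * σ ^ 3 := by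
        apply mul_le_mul_of_nonneg_right _ (by positivity)
        rw [hgd]; exact hg
      linarith
    have hxσ : t1 ^ 2 ≤ 17 / 2 * σ := by rw [hσ]; linarith
    have hTσ : t1 ≤ 2916 / 1000 * σ :=
      errBound_tσ (by norm_num) hσ1 hxσ (by norm_num) (by norm_num)
    -- D ≤ 1.1334 g
    have hDg2 : D ≤ 1134 / 1000 * g := errBound_D2 hx8 hDg hg0
    have hθσ : (t ^ 2 - t1 ^ 2) * σ ^ 2 ≤ 954 / 100000 := by
      rw [hθ]
      have h4 : 2 * t1 + D ≤ 5838 / 1000 * σ := by linarith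
      have h5 : D * (2 * t1 + D) ≤ 1134 / 1000 * g * (5838 / 1000 * σ) :=
        mul_le_mul hDg2 h4 (by positivity) (by positivity)
      have h6 : D * (2 * t1 + D) * σ ^ 2 ≤ 1134 / 1000 * g * (5838 / 1000 * σ) * σ ^ 2 :=
        mul_le_mul_of_nonneg_right h5 (by positivity)
      have h7 : 1134 / 1000 * g * (5838 / 1000 * σ) * σ ^ 2 = 1134 / 1000 * (5838 / 1000) * (g * σ ^ 3) := by
        ring
      rw [h7] at h6
      linarith
    have hσ2 : 1 ≤ σ ^ 2 := by nlinarith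
    have hθ1 : t ^ 2 - t1 ^ 2 ≤ 954 / 100000 :=
      (le_mul_of_one_le_right hθ0 hσ2).trans hθσ
    have hyσ : t ^ 2 ≤ 85125 / 10000 * σ := by linarith
    have hgt : g * (t * (1 + t ^ 4)) ≤ 1 := errBound_gtσ hg0 hgσ hσ1 ht hyσ
    have hL : Real.log (t ^ 2) ≤ 215 / 100 * σ := by
      have e : t ^ 2 = 2 * (2 * (2 * (t ^ 2 / (8 * σ)))) * σ := by field_simp; ring
      have hs0 : 0 < σ := by linarith
      rw [e, Real.log_mul (by positivity) (by positivity), Real.log_mul (by norm_num) (by positivity),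
        Real.log_mul (by norm_num) (by positivity), Real.log_mul (by norm_num) (by positivity)]
      have a1 := Real.log_le_sub_one_of_pos (x := t ^ 2 / (8 * σ)) (by positivity)
      have a2 := Real.log_le_sub_one_of_pos hs0
      have a3 : t ^ 2 / (8 * σ) ≤ 85125 / 80000 := by
        rw [div_le_iff₀ (by positivity)]
        linarith
      linarith
    have hB : 215 / 100 * σ * (t ^ 2 - t1 ^ 2) + 3 * ((t ^ 2 - t1 ^ 2) / (t1 ^ 2 - 1)) +
        (t ^ 2 - t1 ^ 2) / (t1 ^ 2 + 1) ≤ 38 / 1000 := by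
      have b1 : (t ^ 2 - t1 ^ 2) / (t1 ^ 2 - 1) ≤ (954 / 100000) / (75 / 10) := by
        apply div_le_div₀ (by norm_num) hθ1 (by norm_num) (by linarith)
      have b2 : (t ^ 2 - t1 ^ 2) / (t1 ^ 2 + 1) ≤ (954 / 100000) / (95 / 10) := by
        apply div_le_div₀ (by norm_num) hθ1 (by norm_num) (by linarith)
      have b3 : σ * (t ^ 2 - t1 ^ 2) ≤ 954 / 100000 := by
        have : σ * (t ^ 2 - t1 ^ 2) ≤ (t ^ 2 - t1 ^ 2) * σ ^ 2 := by
          have : 0 ≤ (t ^ 2 - t1 ^ 2) * (σ * (σ - 1)) :=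
            mul_nonneg hθ0 (mul_nonneg (by linarith) (by linarith))
          nlinarith
        linarith
      norm_num at b1 b2
      linarith
    have hfin := errBound_Er hx hxy hL hB (by norm_num)
    refine ⟨by linarith, hgt, ?_, fun _ => ?_⟩
    · rw [hEr]; linarith
    · rw [hEr]; linarith

end Pool.Agent.SG
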