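import Pool.Agent.Lib.MP_8b9a2e_co.Mg.G005

set_option autoImplicit false
open Classical

namespace Pool.Agent.SG

theorem herm_adj {n : ℕ} (G : SimpleGraph (Fin n)) : (G.adjMatrix ℝ).IsHermitian := by
  rw [Matrix.IsHermitian, Matrix.conjTranspose_eq_transpose_of_trivial]
  exact SimpleGraph.transpose_adjMatrix G

theorem final_aux (n : ℕ) (hn : 2 ≤ n) : ∃ k ℓ : ℕ, 2 ≤ ℓ ∧ ℓ + 2 * k = n ∧
    ∀ T : SimpleGraph (Fin n), T.IsTree →
      ∀ (hC : ((CG n k ℓ).adjMatrix ℝ).IsHermitian) (hT : (T.adjMatrix ℝ).IsHermitian)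
        (i j : Fin (Fintype.card (Fin n))), i.val = 0 → j.val = 1 →
        hC.eigenvalues₀ i - hC.eigenvalues₀ j ≤ hT.eigenvalues₀ i - hT.eigenvalues₀ j := by
  have hcard : Fintype.card (Fin n) = n := Fintype.card_fin n
  let i0 : Fin (Fintype.card (Fin n)) := ⟨0, by omega⟩
  let j0 : Fin (Fintype.card (Fin n)) := ⟨1, by omega⟩
  let gv : ℕ → ℝ := fun k =>
    (herm_adj (CG n k (n - 2 * k))).eigenvalues₀ i0 - (herm_adj (CG n k (n - 2 * k))).eigenvalues₀ j0
  obtain ⟨k, hk, hmin⟩ := Finset.exists_min_image (Finset.range (n / 2)) gv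
    ⟨0, Finset.mem_range.mpr (by omega)⟩
  have hk' : k < n / 2 := Finset.mem_range.mp hk
  refine ⟨k, n - 2 * k, by omega, by omega, ?_⟩
  intro T hT hC hTA i j hi hj
  have hi0 : i = i0 := Fin.ext hi
  have hj0 : j = j0 := Fin.ext hj
  obtain ⟨f, h, hSp⟩ := structure_thm hn T hT hTA i j hi hj
  obtain ⟨k', ℓ', h1, h2, h3⟩ := good_all hn hSp
  have hℓ : ℓ' = n - 2 * k' := by omega
  subst hℓ
  have h4 := h3 (herm_adj _) i j hi hj
  have h5 := hmin k' (Finset.mem_range.mpr (by omega))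
  subst hi0; subst hj0
  exact le_trans h5 h4

end Pool.Agent.SG
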