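import Pool.Agent.Lib.MP_8b9a2e_co.Defs

set_option autoImplicit false

namespace Pool.Agent.SG

private lemma MIneqE_M0 {y : ℝ} (hy : 36 / 25 ≤ y) : 0 ≤ Mlow y := by
  unfold Mlow Mf
  split_ifs
  · positivity
  · norm_num

private lemma MIneqE_M1 {y : ℝ} (hy : 36 / 25 ≤ y) :
    Mlow y * (y ^ 2 + y + 1) ^ 2 ≤ 4 * y ^ 3 * (y + 1) := by
  unfold Mlow Mf
  split_ifs with h
  · rw [div_mul_cancel₀]
    positivity
  · obtain ⟨z, rfl⟩ : ∃ z, y = 36 / 25 + z := ⟨y - 36 / 25, by ring⟩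
    have hz : 0 ≤ z := by linarith
    have : 4 * (36 / 25 + z) ^ 3 * ((36 / 25 + z) + 1) - 6 / 5 * ((36 / 25 + z) ^ 2 + (36 / 25 + z) + 1) ^ 2
      = 14/5 * z^4 + (4 * (4 * (36/25) + 1) - 12/5 * (2 * (36/25) + 1)) * z^3
        + (4 * (6 * (36/25)^2 + 3 * (36/25)) - 6/5 * (2 * ((36/25)^2 + 36/25 + 1) + (2 * (36/25) + 1)^2)) * z^2
        + (4 * (4 * (36/25)^3 + 3 * (36/25)^2) - 12/5 * ((36/25)^2 + 36/25 + 1) * (2 * (36/25) + 1)) * z
        + (4 * (36/25)^3 * (36/25 + 1) - 6/5 * ((36/25)^2 + 36/25 + 1)^2) := by ring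
    have h2 : 0 ≤ 4 * (36 / 25 + z) ^ 3 * ((36 / 25 + z) + 1) - 6 / 5 * ((36 / 25 + z) ^ 2 + (36 / 25 + z) + 1) ^ 2 := by
      rw [this]
      norm_num
      positivity
    linarith

private lemma MIneqE_M3 {y x : ℝ} (hy : 36 / 25 ≤ y) (hx0 : 0 ≤ x) (_hx1 : x ≤ 1) :
    Mlow y * ((1 - x) * (y - 1 + x)) ≤ y * (y - 1) := by
  by_cases h : 2 ≤ y
  · have h1 := MIneqE_M1 hy
    have h0 := MIneqE_M0 hy
    have hMy : Mlow y ≤ y := by
      have h2 : Mlow y * (y ^ 2 + y + 1) ^ 2 ≤ y * (y ^ 2 + y + 1) ^ 2 := by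
        nlinarith [sq_nonneg (y ^ 2 - y - 1), mul_nonneg (by linarith : (0:ℝ) ≤ y) (sq_nonneg (y ^ 2 - y - 1))]
      exact le_of_mul_le_mul_right h2 (by positivity)
    have h3 : (1 - x) * (y - 1 + x) ≤ y - 1 := by nlinarith
    calc Mlow y * ((1 - x) * (y - 1 + x)) ≤ Mlow y * (y - 1) := mul_le_mul_of_nonneg_left h3 h0
      _ ≤ y * (y - 1) := mul_le_mul_of_nonneg_right hMy (by linarith)
  · have : Mlow y = 6 / 5 := by unfold Mlow; rw [if_neg h]
    rw [this]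
    nlinarith [sq_nonneg (1 - x - (y - 1 + x))]

private lemma MIneqE_key {t a c M ν : ℝ} (ht0 : 0 < t) (hy1 : 1 < t ^ 2) (ha : 0 < a) (hc : 1 ≤ c)
    (hνt : ν * t = t ^ 2 + 1) (hν2 : 2 < ν) (hνc : 0 < ν - c) (hνc1 : 0 < ν * c - 1)
    (hM0 : 0 ≤ M) (hM1 : M * ((t ^ 2) ^ 2 + t ^ 2 + 1) ^ 2 ≤ 4 * (t ^ 2) ^ 3 * (t ^ 2 + 1)) :
    M * (((t + a) * (t * a + 1)) * ((ν - c) * (ν * c - 1))) ≤ (t ^ 2) ^ 2 * (a + c) ^ 2 := by
  have hc0 : 0 < c := by linarith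
  rcases le_or_gt ν (2 * c) with h | h
  · have hS : (t + a) * (t * a + 1) ≤ t * (a + c) ^ 2 := by
      have e : t * (a + c) ^ 2 - (t + a) * (t * a + 1) = a * (t * (2 * c - ν)) + t * (c ^ 2 - 1) := by
        linear_combination a * hνt
      have h1 : 0 ≤ a * (t * (2 * c - ν)) := by
        have : 0 ≤ 2 * c - ν := by linarith
        positivity
      have h2 : 0 ≤ t * (c ^ 2 - 1) := by
        have : 0 ≤ c ^ 2 - 1 := by nlinarith
        positivity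
      linarith
    have hT : M * (t * ((ν - c) * (ν * c - 1))) ≤ (t ^ 2) ^ 2 := by
      have h4 : 4 * ν * ((ν - c) * (ν * c - 1)) ≤ (ν ^ 2 - 1) ^ 2 := by
        nlinarith [sq_nonneg ((ν ^ 2 - ν * c) - (ν * c - 1))]
      have h5 : t ^ 2 * (ν ^ 2 - 1) = (t ^ 2) ^ 2 + t ^ 2 + 1 := by
        linear_combination (ν * t + (t ^ 2 + 1)) * hνt
      have h6 : (t ^ 2) ^ 2 * (4 * ν * ((ν - c) * (ν * c - 1))) ≤ ((t ^ 2) ^ 2 + t ^ 2 + 1) ^ 2 := by
        have := mul_le_mul_of_nonneg_left h4 (by positivity : 0 ≤ (t ^ 2) ^ 2)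
        calc _ ≤ (t ^ 2) ^ 2 * (ν ^ 2 - 1) ^ 2 := this
          _ = (t ^ 2 * (ν ^ 2 - 1)) ^ 2 := by ring
          _ = _ := by rw [h5]
      have h7 : t * (M * ((t ^ 2) ^ 2 * (4 * ν * ((ν - c) * (ν * c - 1))))) ≤
          t * (4 * (t ^ 2) ^ 3 * (t ^ 2 + 1)) :=
        mul_le_mul_of_nonneg_left (le_trans (mul_le_mul_of_nonneg_left h6 hM0) hM1) ht0.le
      have h8 : (4 * ν * (t ^ 2) ^ 2) * (M * (t * ((ν - c) * (ν * c - 1)))) ≤
          (4 * ν * (t ^ 2) ^ 2) * (t ^ 2) ^ 2 := by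
        have e1 : t * (4 * (t ^ 2) ^ 3 * (t ^ 2 + 1)) = (4 * ν * (t ^ 2) ^ 2) * (t ^ 2) ^ 2 := by
          rw [← hνt]; ring
        rw [← e1]
        refine le_trans (le_of_eq ?_) h7
        ring
      exact le_of_mul_le_mul_left h8 (by positivity)
    calc M * (((t + a) * (t * a + 1)) * ((ν - c) * (ν * c - 1)))
        = ((t + a) * (t * a + 1)) * (M * ((ν - c) * (ν * c - 1))) := by ring
      _ ≤ (t * (a + c) ^ 2) * (M * ((ν - c) * (ν * c - 1))) :=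
          mul_le_mul_of_nonneg_right hS (by positivity)
      _ = (M * (t * ((ν - c) * (ν * c - 1)))) * (a + c) ^ 2 := by ring
      _ ≤ (t ^ 2) ^ 2 * (a + c) ^ 2 := mul_le_mul_of_nonneg_right hT (by positivity)
  · obtain ⟨w, hw⟩ : ∃ w, w = ν * c - c ^ 2 - 1 := ⟨_, rfl⟩
    have hνc2 : 0 < ν * c - 2 := by nlinarith
    have hwc : (t ^ 2 - 1) ^ 2 * c ≤ 2 * t ^ 2 * ν * w := by
      have e1 : (t ^ 2 - 1) ^ 2 = t ^ 2 * (ν ^ 2 - 4) := by
        linear_combination (- (ν * t) - (t ^ 2 + 1)) * hνt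
      have e2 : 2 * t ^ 2 * ν * w - (t ^ 2 - 1) ^ 2 * c = t ^ 2 * ((ν - 2 * c) * (ν * c - 2)) := by
        rw [e1, hw]; ring
      have : 0 ≤ t ^ 2 * ((ν - 2 * c) * (ν * c - 2)) := by
        have : 0 ≤ ν - 2 * c := by linarith
        positivity
      linarith
    have hw0 : 0 ≤ w := by
      by_contra hneg
      push Not at hneg
      have : 2 * t ^ 2 * ν * w < 0 := by
        have : 0 < 2 * t ^ 2 * ν := by positivity
        exact mul_neg_of_pos_of_neg this hneg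
      have h2 : 0 ≤ (t ^ 2 - 1) ^ 2 * c := by positivity
      linarith
    have hT : (ν - c) * (ν * c - 1) = ν * w + c := by rw [hw]; ring
    have hM2 : M * ((t ^ 2 + 1) * ((t ^ 2) ^ 2 + 1)) ≤ 4 * (t ^ 2) ^ 3 := by
      have h1 : M * ((t ^ 2 + 1) ^ 2 * ((t ^ 2) ^ 2 + 1)) ≤ M * ((t ^ 2) ^ 2 + t ^ 2 + 1) ^ 2 := by
        apply mul_le_mul_of_nonneg_left _ hM0
        nlinarith [sq_nonneg (t ^ 2)]
      have h2 : (t ^ 2 + 1) * (M * ((t ^ 2 + 1) * ((t ^ 2) ^ 2 + 1))) ≤ (t ^ 2 + 1) * (4 * (t ^ 2) ^ 3) := by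
        nlinarith
      exact le_of_mul_le_mul_left h2 (by positivity)
    have h3 : (t ^ 2 - 1) ^ 2 * (M * ((ν - c) * (ν * c - 1))) ≤ 4 * (t ^ 2) ^ 2 * (t * w) := by
      have e3 : (t ^ 2 - 1) ^ 2 * (M * ((ν - c) * (ν * c - 1))) =
          M * ν * (t ^ 2 - 1) ^ 2 * w + M * ((t ^ 2 - 1) ^ 2 * c) := by rw [hT]; ring
      have h4 : M * ((t ^ 2 - 1) ^ 2 * c) ≤ M * (2 * t ^ 2 * ν * w) := mul_le_mul_of_nonneg_left hwc hM0
      have h5 : M * ν * (t ^ 2 - 1) ^ 2 * w + M * (2 * t ^ 2 * ν * w) = M * ν * ((t ^ 2) ^ 2 + 1) * w := by ring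
      have h6 : M * ν * ((t ^ 2) ^ 2 + 1) ≤ 4 * (t ^ 2) ^ 2 * t := by
        have h7 : t * (M * ν * ((t ^ 2) ^ 2 + 1)) ≤ t * (4 * (t ^ 2) ^ 2 * t) := by
          calc t * (M * ν * ((t ^ 2) ^ 2 + 1)) = M * ((ν * t) * ((t ^ 2) ^ 2 + 1)) := by ring
            _ = M * ((t ^ 2 + 1) * ((t ^ 2) ^ 2 + 1)) := by rw [hνt]
            _ ≤ 4 * (t ^ 2) ^ 3 := hM2
            _ = _ := by ring
        exact le_of_mul_le_mul_left h7 ht0
      have h8 := mul_le_mul_of_nonneg_right h6 hw0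
      calc _ = _ := e3
        _ ≤ M * ν * ((t ^ 2) ^ 2 + 1) * w := by linarith
        _ ≤ 4 * (t ^ 2) ^ 2 * t * w := h8
        _ = _ := by ring
    have h9 : 4 * ((t + a) * (t * a + 1)) * (t * w) ≤ (t ^ 2 - 1) ^ 2 * (a + c) ^ 2 := by
      have e4 : t * w = (t ^ 2 + 1) * c - t * (c ^ 2 + 1) := by
        rw [hw]; linear_combination c * hνt
      rw [e4]
      nlinarith [sq_nonneg (((t ^ 2 + 1) - 2 * t * c) * a - (c * (t ^ 2 + 1) - 2 * t))]
    have hS0 : 0 ≤ (t + a) * (t * a + 1) := by positivity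
    have h10 : (t ^ 2 - 1) ^ 2 * (M * (((t + a) * (t * a + 1)) * ((ν - c) * (ν * c - 1)))) ≤
        (t ^ 2 - 1) ^ 2 * ((t ^ 2) ^ 2 * (a + c) ^ 2) := by
      calc (t ^ 2 - 1) ^ 2 * (M * (((t + a) * (t * a + 1)) * ((ν - c) * (ν * c - 1))))
          = ((t + a) * (t * a + 1)) * ((t ^ 2 - 1) ^ 2 * (M * ((ν - c) * (ν * c - 1)))) := by ring
        _ ≤ ((t + a) * (t * a + 1)) * (4 * (t ^ 2) ^ 2 * (t * w)) := mul_le_mul_of_nonneg_left h3 hS0
        _ = (t ^ 2) ^ 2 * (4 * ((t + a) * (t * a + 1)) * (t * w)) := by ring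
        _ ≤ (t ^ 2) ^ 2 * ((t ^ 2 - 1) ^ 2 * (a + c) ^ 2) := mul_le_mul_of_nonneg_left h9 (by positivity)
        _ = _ := by ring
    have h11 : 0 < t ^ 2 - 1 := by linarith
    exact le_of_mul_le_mul_left h10 (by positivity)

private lemma MIneqE_ge {t a c M : ℝ} (ht : 6 / 5 ≤ t) (ha : 0 < a) (hc : 1 ≤ c) (hc1 : c < lam t)
    (hM0 : 0 ≤ M) (hM1 : M * ((t ^ 2) ^ 2 + t ^ 2 + 1) ^ 2 ≤ 4 * (t ^ 2) ^ 3 * (t ^ 2 + 1))
    (hM3 : ∀ x : ℝ, 0 ≤ x → x ≤ 1 → M * ((1 - x) * (t ^ 2 - 1 + x)) ≤ t ^ 2 * (t ^ 2 - 1)) :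
    M * (t - 1 / t) ^ 2 / t ^ 2 ≤ Lf t a c * Lf t (1 / a) (1 / c) := by
  have ht0 : 0 < t := by linarith
  have ht1 : 1 / t ≤ 1 := by
    rw [div_le_one ht0]; linarith
  have hc0 : 0 < c := by linarith
  have hy1 : 1 < t ^ 2 := by nlinarith
  have hδ : 0 < t - 1 / t := by linarith
  have hS : (t + a) * (t * a + 1) ≤ t * (a + c) ^ 2 ∨ c < t := by
    by_cases h : c < t
    · exact Or.inr h
    · left
      push Not at h
      nlinarith [mul_pos ha ht0, mul_pos ha ht0, mul_le_mul_of_nonneg_left h ht0.le, mul_nonneg ha.le (sub_nonneg.2 (mul_le_mul_of_nonneg_left h ht0.le)), mul_nonneg ht0.le (by nlinarith : 0 ≤ c ^ 2 - 1)]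
  have hL1 : Lf t a c = (t - 1 / t) * t * (a + c) / ((t + a) * (lam t - c)) := by
    unfold Lf
    rw [if_pos (by linarith)]
  generalize hν : lam t = ν at *
  have hν' : ν = t + 1 / t := by rw [← hν]; rfl
  have hνt : ν * t = t ^ 2 + 1 := by
    rw [hν']; field_simp
  have hνc : 0 < ν - c := by linarith
  have hν2 : 2 < ν := by
    have : 0 < (t - 1) ^ 2 := by
      have : 0 < t - 1 := by linarith
      positivity
    have h2 : 0 < (ν - 2) * t := by nlinarith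
    have := (mul_pos_iff_of_pos_right ht0).1 h2
    linarith
  rcases le_or_gt c t with hct | hct
  · -- cases 1, 2
    have hνc1 : 0 < ν * c - 1 := by nlinarith
    have hL2 : Lf t (1 / a) (1 / c) = (t - 1 / t) * t * (a + c) / ((t * a + 1) * (ν * c - 1)) := by
      unfold Lf
      rw [if_pos (one_div_le_one_div_of_le hc0 hct), hν]
      have h3 : t + 1 / a = (t * a + 1) / a := by field_simp
      have h4 : ν - 1 / c = (ν * c - 1) / c := by field_simp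
      have h5 : 1 / a + 1 / c = (a + c) / (a * c) := by field_simp; ring
      rw [h3, h4, h5]
      field_simp
    rw [hL1, hL2, div_mul_div_comm]
    have key : M * (((t + a) * (t * a + 1)) * ((ν - c) * (ν * c - 1))) ≤ (t ^ 2) ^ 2 * (a + c) ^ 2 :=
      MIneqE_key ht0 hy1 ha hc hνt hν2 hνc hνc1 hM0 hM1
    rw [div_le_div_iff₀ (by positivity) (by positivity)]
    have h6 := mul_le_mul_of_nonneg_left key (sq_nonneg (t - 1 / t))
    nlinarith [h6]
  · -- case 3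
    have htc1 : 0 < t * c - 1 := by nlinarith
    have hL2 : Lf t (1 / a) (1 / c) = (t - 1 / t) ^ 2 * (a + c) / ((t * a + 1) * (t * c - 1)) := by
      unfold Lf
      rw [if_neg (not_le.2 (one_div_lt_one_div_of_lt ht0 hct))]
      have h3 : t + 1 / a = (t * a + 1) / a := by field_simp
      have h4 : t - 1 / c = (t * c - 1) / c := by field_simp
      have h5 : 1 / a + 1 / c = (a + c) / (a * c) := by field_simp; ring
      rw [h3, h4, h5]
      field_simp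
    rw [hL1, hL2, div_mul_div_comm]
    have hS' : (t + a) * (t * a + 1) ≤ t * (a + c) ^ 2 := by
      rcases hS with h | h
      · exact h
      · linarith
    have hG : M * ((ν - c) * (t * c - 1)) ≤ t * (t ^ 2 - 1) := by
      have h7 := hM3 (t * (c - t)) (by nlinarith) (by nlinarith)
      have h8 : (1 - t * (c - t)) * (t ^ 2 - 1 + t * (c - t)) = t * ((ν - c) * (t * c - 1)) := by
        have : 1 - t * (c - t) = t * (ν - c) := by nlinarith
        rw [this]; ring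
      rw [h8] at h7
      have h9 : t * (M * ((ν - c) * (t * c - 1))) ≤ t * (t * (t ^ 2 - 1)) := by nlinarith
      exact le_of_mul_le_mul_left h9 ht0
    have hδ2 : t * (t - 1 / t) = t ^ 2 - 1 := by field_simp
    have key : M * (((t + a) * (t * a + 1)) * ((ν - c) * (t * c - 1))) ≤ (t ^ 2 * (t ^ 2 - 1)) * (a + c) ^ 2 := by
      calc M * (((t + a) * (t * a + 1)) * ((ν - c) * (t * c - 1)))
          = (M * ((ν - c) * (t * c - 1))) * ((t + a) * (t * a + 1)) := by ring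
        _ ≤ (t * (t ^ 2 - 1)) * (t * (a + c) ^ 2) := by
            apply mul_le_mul hG hS' (by positivity)
            have : 0 ≤ t ^ 2 - 1 := by linarith
            positivity
        _ = _ := by ring
    rw [← hδ2] at key
    rw [div_le_div_iff₀ (by positivity) (by positivity)]
    have h6 := mul_le_mul_of_nonneg_left key (sq_nonneg (t - 1 / t))
    nlinarith [h6]

/-- edge type -/
theorem mE {t a c : ℝ} (ht : 6 / 5 ≤ t) (ha : 0 < a) (hc : 0 < c) (hc1 : c < lam t)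
    (hc2 : 1 / c < lam t) :
    Mlow (t ^ 2) * (t - 1 / t) ^ 2 / t ^ 2 ≤ Lf t a c * Lf t (1 / a) (1 / c) := by
  have hy : 36 / 25 ≤ t ^ 2 := by nlinarith
  rcases le_or_gt 1 c with h | h
  · exact MIneqE_ge ht ha h hc1 (MIneqE_M0 hy) (MIneqE_M1 hy) (fun x h0 h1 => MIneqE_M3 hy h0 h1)
  · have h' : 1 ≤ 1 / c := by
      rw [le_div_iff₀ hc]; linarith
    have := MIneqE_ge ht (one_div_pos.2 ha) h' hc2 (MIneqE_M0 hy) (MIneqE_M1 hy)
      (fun x h0 h1 => MIneqE_M3 hy h0 h1)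
    rwa [one_div_one_div, one_div_one_div, mul_comm (Lf t (1 / a) (1 / c))] at this

end Pool.Agent.SG
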