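import Pool.Agent.Lib.MP_8b9a2e_co.Mg.G011

set_option autoImplicit false

namespace Pool.Agent.SG

open Real

lemma NumF2b_conc {x y z θ : ℝ} (hx : 1 < x) (hz : 1 < z) (hy : 1 < y) (h0 : 0 ≤ θ) (h1 : θ ≤ 1)
    (h : log y = θ * log x + (1 - θ) * log z) :
    θ * log (1 - 1 / x) + (1 - θ) * log (1 - 1 / z) ≤ log (1 - 1 / y) := by
  have hθ' : 0 ≤ 1 - θ := by linarith
  have e1 : 1 / y ≤ θ * (1 / x) + (1 - θ) * (1 / z) := by
    have hc := convexOn_exp.2 (Set.mem_univ (-log x)) (Set.mem_univ (-log z)) h0 hθ' (by ring)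
    simp only [smul_eq_mul] at hc
    have e : θ * -log x + (1 - θ) * -log z = -log y := by rw [h]; ring
    rw [e, exp_neg, exp_neg, exp_neg, exp_log (by linarith), exp_log (by linarith),
      exp_log (by linarith)] at hc
    simpa [one_div] using hc
  have px : 0 < 1 - 1 / x := by
    rw [sub_pos, div_lt_one (by linarith)]; exact hx
  have pz : 0 < 1 - 1 / z := by
    rw [sub_pos, div_lt_one (by linarith)]; exact hz
  have e2 := strictConcaveOn_log_Ioi.concaveOn.2 (Set.mem_Ioi.2 px) (Set.mem_Ioi.2 pz) h0 hθ'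
    (by ring)
  simp only [smul_eq_mul] at e2
  refine e2.trans ?_
  apply log_le_log
  · rcases eq_or_lt_of_le h0 with h0' | h0'
    · rw [← h0']; simpa using pz
    · have := mul_pos h0' px
      have := mul_nonneg hθ' pz.le
      linarith
  · linarith

lemma NumF2b_loggam {y : ℝ} (hy : 1 < y) (n : ℕ) :
    0 < gam y n ∧ log (gam y n) =
      3 * log y + log (1 - 1 / y) + log (1 - 1 / y ^ 2) + (y - 1 - (n : ℝ) / 2) * log y := by
  have h0 : 0 < y := by linarith
  have p1 : 0 < 1 - 1 / y := by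
    rw [sub_pos, div_lt_one h0]; exact hy
  have p2 : 0 < 1 - 1 / y ^ 2 := by
    rw [sub_pos, div_lt_one (by positivity)]; nlinarith
  have e : gam y n = y ^ 3 * (1 - 1 / y) * (1 - 1 / y ^ 2) * y ^ (y - 1 - (n : ℝ) / 2) := by
    unfold gam
    congr 1
    field_simp
    ring
  have p3 : 0 < y ^ (y - 1 - (n : ℝ) / 2) := rpow_pos_of_pos h0 _
  constructor
  · rw [e]; positivity
  · rw [e, log_mul (by positivity) p3.ne', log_mul (by positivity) p2.ne',
      log_mul (by positivity) p1.ne', log_pow, log_rpow h0]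
    norm_num

/-- the linear part -/
lemma NumF2b_P {K y a b l : ℝ} (hK : 4 ≤ K) (h3 : K ≤ y) (h4 : y ≤ K + 1) (ha : a = log K)
    (hb : b = log (K + 1)) (hl : l = log y) :
    l * ((K + 1 - y) * b + (y - K) * a) - a * b ≤ 1 / 5 * (b - a) := by
  have hK0 : 0 < K := by linarith
  have hy0 : 0 < y := by linarith
  have ha0 : 0 < a := by rw [ha]; exact log_pos (by linarith)
  have hb0 : 0 < b := by rw [hb]; exact log_pos (by linarith)
  -- log bounds
  have lw : b - a = log ((K + 1) / K) := by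
    rw [hb, ha, log_div (by positivity) (by positivity)]
  have w1 : b - a ≤ 1 / K := by
    rw [lw]
    have := log_le_sub_one_of_pos (show 0 < (K + 1) / K by positivity)
    calc _ ≤ (K + 1) / K - 1 := this
      _ = 1 / K := by field_simp; ring
  have w2 : 1 / (K + 1) ≤ b - a := by
    rw [lw]
    have := one_sub_inv_le_log_of_pos (show 0 < (K + 1) / K by positivity)
    calc 1 / (K + 1) = 1 - ((K + 1) / K)⁻¹ := by field_simp; ring
      _ ≤ _ := this
  have l1 : l ≤ a + (y - K) / K := by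
    have := log_le_sub_one_of_pos (show 0 < y / K by positivity)
    rw [log_div hy0.ne' hK0.ne'] at this
    rw [hl, ha]
    have e : y / K - 1 = (y - K) / K := by field_simp
    linarith
  have l2 : l ≤ b - (K + 1 - y) / (K + 1) := by
    have := log_le_sub_one_of_pos (show 0 < y / (K + 1) by positivity)
    rw [log_div hy0.ne' (by positivity)] at this
    rw [hl, hb]
    have e : y / (K + 1) - 1 = -((K + 1 - y) / (K + 1)) := by field_simp; ring
    linarith
  obtain ⟨s, rfl⟩ : ∃ s, y = K + s := ⟨y - K, by ring⟩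
  have hs0 : 0 ≤ s := by linarith
  have hs1 : s ≤ 1 := by linarith
  set w := b - a with hw
  have hbw : b = a + w := by rw [hw]; ring
  have hw0 : 0 < w := lt_of_lt_of_le (by positivity) w2
  set N := l - (1 - s) * a - s * b with hN
  have hlN : l = N + (1 - s) * a + s * b := by rw [hN]; ring
  -- N ≤ s p, N ≤ (1-s) q
  have n1 : N ≤ s * (1 / K - w) := by
    have e : (K + s - K) / K = s * (1 / K) := by field_simp; ring
    rw [e] at l1
    rw [hN, hbw]; nlinarith
  have n2 : N ≤ (1 - s) * (w - 1 / (K + 1)) := by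
    have e : (K + 1 - (K + s)) / (K + 1) = (1 - s) * (1 / (K + 1)) := by field_simp; ring
    rw [e] at l2
    rw [hN, hbw]
    rw [hbw] at l2
    nlinarith
  have hS : 1 / K - 1 / (K + 1) = 1 / (K * (K + 1)) := by field_simp; ring
  have n3 : N ≤ 1 / (4 * (K * (K + 1))) := by
    set p := 1 / K - w with hp
    set q := w - 1 / (K + 1) with hq
    have hp0 : 0 ≤ p := by rw [hp]; linarith
    have hq0 : 0 ≤ q := by rw [hq]; linarith
    have hpq : p + q = 1 / (K * (K + 1)) := by rw [← hS, hp, hq]; ring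
    have hpq0 : 0 < p + q := by rw [hpq]; positivity
    have m1 : N * q ≤ s * p * q := mul_le_mul_of_nonneg_right n1 hq0
    have m2 : N * p ≤ (1 - s) * q * p := mul_le_mul_of_nonneg_right n2 hp0
    have m3 : N * (p + q) ≤ p * q := by nlinarith
    have m4 : N * (p + q) ≤ ((p + q) / 4) * (p + q) := by nlinarith [sq_nonneg (p - q)]
    have m5 := le_of_mul_le_mul_right m4 hpq0
    calc N ≤ (p + q) / 4 := m5
      _ = 1 / (4 * (K * (K + 1))) := by rw [hpq]; field_simp
  have hB : b ≤ 4 / 5 * K - 1 := by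
    have := log_le_sub_one_of_pos (show 0 < (K + 1) / 8 by positivity)
    rw [log_div (by positivity) (by norm_num)] at this
    have h8 : log 8 = 3 * log 2 := by
      rw [show (8 : ℝ) = 2 ^ 3 by norm_num, log_pow]; norm_num
    have h2 := log_two_lt_d9
    rw [hb]
    linarith
  -- R
  have hR : l * ((K + 1 - (K + s)) * b + (K + s - K) * a) - a * b =
      N * ((1 - s) * b + s * a) + s * (1 - s) * w ^ 2 := by
    rw [hlN, hbw]; ring
  rw [hR]
  have hT0 : 0 ≤ (1 - s) * b + s * a := by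
    have := mul_nonneg (show 0 ≤ 1 - s by linarith) hb0.le
    have := mul_nonneg hs0 ha0.le
    linarith
  have hTb : (1 - s) * b + s * a ≤ b := by rw [hbw]; nlinarith
  have hT1 : N * ((1 - s) * b + s * a) ≤ 1 / (4 * (K * (K + 1))) * b :=
    calc N * ((1 - s) * b + s * a) ≤ 1 / (4 * (K * (K + 1))) * ((1 - s) * b + s * a) :=
          mul_le_mul_of_nonneg_right n3 hT0
      _ ≤ _ := mul_le_mul_of_nonneg_left hTb (by positivity)
  have hT2 : s * (1 - s) * w ^ 2 ≤ 1 / (4 * K) * w := by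
    have : s * (1 - s) ≤ 1 / 4 := by nlinarith [sq_nonneg (s - 1 / 2)]
    calc s * (1 - s) * w ^ 2 ≤ 1 / 4 * w ^ 2 := mul_le_mul_of_nonneg_right this (by positivity)
      _ = 1 / 4 * w * w := by ring
      _ ≤ 1 / 4 * (1 / K) * w := by
          apply mul_le_mul_of_nonneg_right _ hw0.le
          apply mul_le_mul_of_nonneg_left w1 (by norm_num)
      _ = _ := by field_simp
  have hT3 : 1 / (4 * (K * (K + 1))) * b ≤ b / (4 * K) * w := by
    calc 1 / (4 * (K * (K + 1))) * b = b / (4 * K) * (1 / (K + 1)) := by field_simp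
      _ ≤ _ := mul_le_mul_of_nonneg_left w2 (by positivity)
  have hT4 : (b / (4 * K) + 1 / (4 * K)) * w ≤ 1 / 5 * w := by
    apply mul_le_mul_of_nonneg_right _ hw0.le
    rw [← add_div, div_le_iff₀ (by positivity)]
    linarith
  nlinarith

lemma NumF2b_Mf {y : ℝ} (hy : 4 ≤ y) : 14 / 5 ≤ Mf y := by
  unfold Mf
  rw [le_div_iff₀ (by positivity)]
  obtain ⟨z, rfl⟩ : ∃ z, y = 4 + z := ⟨y - 4, by ring⟩
  have hz : 0 ≤ z := by linarith
  nlinarith [pow_nonneg hz 2, pow_nonneg hz 3, pow_nonneg hz 4]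

lemma NumF2b_Z {y y1 Z : ℝ} (h3 : 4 ≤ y) (h1 : y1 ≤ y) (h2 : y ≤ y1 + 1 / 80)
    (hZ : Zc y y1 Z) : Z ≤ 39 / 100 := by
  have h := Zc_le (by linarith) h1 h2 hZ
  have hb := rpow_one_add_le_one_add_mul_self (show -1 ≤ y - 1 by linarith)
    (show 0 ≤ (1 : ℝ) / 80 by norm_num) (show (1 : ℝ) / 80 ≤ 1 by norm_num)
  rw [show 1 + (y - 1) = y by ring] at hb
  calc Z ≤ _ := h
    _ ≤ 3 / (2 * y) * (1 + 1 / 80 * (y - 1)) := mul_le_mul_of_nonneg_left hb (by positivity)
    _ ≤ 39 / 100 := by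
        rw [div_mul_eq_mul_div, div_le_iff₀ (by positivity)]
        linarith

lemma NumF2b_exp : exp (2 / 5) ≤ 3 / 2 := by
  have h : exp (2 / 5) ^ 5 = exp 1 ^ 2 := by
    rw [← exp_nat_mul, ← exp_nat_mul]; norm_num
  by_contra hc
  push Not at hc
  have h1 : (3 / 2 : ℝ) ^ 5 < exp (2 / 5) ^ 5 := pow_lt_pow_left₀ hc (by norm_num) (by norm_num)
  rw [h] at h1
  have h2 := exp_one_lt_d9
  have h3 := exp_pos 1
  nlinarith

/-- slack of the constants -/
lemma NumF2b_slack {y y1 Z : ℝ} (h3 : 4 ≤ y) (h1 : y1 ≤ y) (h2 : y ≤ y1 + 1 / 80)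
    (hZ : Zc y y1 Z) : exp (1 / 5) * (cE y * (51 / 50) * √Z) ≤ √(Mlow y) / 2 := by
  have hc : cE y = 26 / 25 := by unfold cE; rw [if_neg (by linarith)]
  have hM : Mlow y = Mf y := by unfold Mlow; rw [if_pos (by linarith)]
  have hZ' := NumF2b_Z h3 h1 h2 hZ
  have hMf := NumF2b_Mf h3
  rw [hc, hM]
  have e1 : √Z ≤ √(39 / 100) := sqrt_le_sqrt hZ'
  have e2 : √(14 / 5) ≤ √(Mf y) := sqrt_le_sqrt hMf
  have e3 : exp (1 / 5) ^ 2 ≤ 3 / 2 := by
    rw [← exp_nat_mul]; norm_num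
    exact NumF2b_exp
  have e4 : exp (1 / 5) * (26 / 25 * (51 / 50) * √(39 / 100)) ≤ √(14 / 5) / 2 := by
    apply le_of_sq_le_sq _ (by positivity)
    rw [mul_pow, mul_pow, div_pow, sq_sqrt (by norm_num), sq_sqrt (by norm_num)]
    nlinarith
  calc exp (1 / 5) * (26 / 25 * (51 / 50) * √Z)
      ≤ exp (1 / 5) * (26 / 25 * (51 / 50) * √(39 / 100)) := by
        apply mul_le_mul_of_nonneg_left _ (exp_pos _).le
        apply mul_le_mul_of_nonneg_left e1 (by norm_num)
    _ ≤ _ := e4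
    _ ≤ _ := by linarith

theorem fn2b {n K : ℕ} (hK : 4 ≤ K) {y y1 Z : ℝ} (h3 : K ≤ y) (h4 : y ≤ K + 1) (h1 : y1 ≤ y)
    (h2 : y ≤ y1 + 1 / 80) (hZ : Zc y y1 Z) :
    cE y * (51 / 50) * √Z * gam K n ≤ √(Mlow y) / 2 * gam y n ∨
    cE y * (51 / 50) * √Z * gam ((K + 1 : ℕ) : ℝ) n ≤ √(Mlow y) / 2 * gam y n := by
  have hK' : (4 : ℝ) ≤ K := by exact_mod_cast hK
  have hy4 : 4 ≤ y := by linarith
  have hsl := NumF2b_slack hy4 h1 h2 hZ
  obtain ⟨gy0, gy⟩ := NumF2b_loggam (show 1 < y by linarith) n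
  obtain ⟨gK0, gK⟩ := NumF2b_loggam (show (1 : ℝ) < K by linarith) n
  obtain ⟨gL0, gL⟩ := NumF2b_loggam (show (1 : ℝ) < ((K + 1 : ℕ) : ℝ) by push_cast; linarith) n
  have hC0 : 0 ≤ cE y * (51 / 50) * √Z := by
    have : 0 ≤ cE y := by unfold cE; split_ifs <;> norm_num
    positivity
  set C := cE y * (51 / 50) * √Z with hC
  -- enough: gam K ≤ e^(1/5) gam y or gam (K+1) ≤ e^(1/5) gam y
  have key : ∀ x : ℝ, gam x n ≤ exp (1 / 5) * gam y n → C * gam x n ≤ √(Mlow y) / 2 * gam y n := by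
    intro x hx
    calc C * gam x n ≤ C * (exp (1 / 5) * gam y n) := mul_le_mul_of_nonneg_left hx hC0
      _ = exp (1 / 5) * C * gam y n := by ring
      _ ≤ _ := mul_le_mul_of_nonneg_right hsl gy0.le
  by_contra hcon
  push Not at hcon
  obtain ⟨c1, c2⟩ := hcon
  have d1 : exp (1 / 5) * gam y n < gam K n := by
    by_contra h
    exact absurd (key _ (not_lt.1 h)) (not_le.2 c1)
  have d2 : exp (1 / 5) * gam y n < gam ((K + 1 : ℕ) : ℝ) n := by
    by_contra h
    exact absurd (key _ (not_lt.1 h)) (not_le.2 c2)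
  have f1 : 1 / 5 + log (gam y n) < log (gam K n) := by
    have := log_lt_log (by positivity) d1
    rwa [log_mul (exp_pos _).ne' gy0.ne', log_exp] at this
  have f2 : 1 / 5 + log (gam y n) < log (gam ((K + 1 : ℕ) : ℝ) n) := by
    have := log_lt_log (by positivity) d2
    rwa [log_mul (exp_pos _).ne' gy0.ne', log_exp] at this
  rw [gy, gK] at f1
  rw [gy, gL] at f2
  push_cast at f2
  have hP := NumF2b_P hK' h3 h4 rfl rfl rfl
  set a := log (K : ℝ) with ha
  set b := log ((K : ℝ) + 1) with hb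
  set l := log y with hl
  have hab : a < b := log_lt_log (by linarith) (by linarith)
  have hal : a ≤ l := log_le_log (by linarith) h3
  have hlb : l ≤ b := log_le_log (by linarith) h4
  have hba : 0 < b - a := by linarith
  set θ := (b - l) / (b - a) with hθ
  have hθ0 : 0 ≤ θ := div_nonneg (by linarith) hba.le
  have hθ1 : θ ≤ 1 := by rw [hθ, div_le_one hba]; linarith
  have hlθ : l = θ * a + (1 - θ) * b := by
    rw [hθ]; field_simp; ring
  have g1 := NumF2b_conc (show (1 : ℝ) < K by linarith) (show (1 : ℝ) < (K : ℝ) + 1 by linarith)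
    (show 1 < y by linarith) hθ0 hθ1 hlθ
  have hl2 : log (y ^ 2) = θ * log ((K : ℝ) ^ 2) + (1 - θ) * log (((K : ℝ) + 1) ^ 2) := by
    rw [log_pow, log_pow, log_pow, ← hl, ← ha, ← hb, hlθ]; push_cast; ring
  have g2 := NumF2b_conc (show (1 : ℝ) < (K : ℝ) ^ 2 by nlinarith)
    (show (1 : ℝ) < ((K : ℝ) + 1) ^ 2 by nlinarith)
    (show 1 < y ^ 2 by nlinarith) hθ0 hθ1 hl2
  -- the linear part in terms of θ
  have hP' : (1 - θ) * (K + 1 - y) * b - θ * (y - K) * a ≤ 1 / 5 := by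
    have e : ((1 - θ) * (K + 1 - y) * b - θ * (y - K) * a) * (b - a) =
        l * ((K + 1 - y) * b + (y - K) * a) - a * b := by
      rw [hθ]; field_simp; ring
    have : ((1 - θ) * (K + 1 - y) * b - θ * (y - K) * a) * (b - a) ≤ 1 / 5 * (b - a) := by
      rw [e]; exact hP
    exact le_of_mul_le_mul_right this hba
  have m1 := mul_le_mul_of_nonneg_left f1.le hθ0
  have m2 := mul_le_mul_of_nonneg_left f2.le (show 0 ≤ 1 - θ by linarith)
  have m3 : 1 / 5 + (3 * l + log (1 - 1 / y) + log (1 - 1 / y ^ 2) + (y - 1 - (n : ℝ) / 2) * l) <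
      θ * (3 * a + log (1 - 1 / (K : ℝ)) + log (1 - 1 / (K : ℝ) ^ 2) +
        ((K : ℝ) - 1 - (n : ℝ) / 2) * a) +
      (1 - θ) * (3 * b + log (1 - 1 / ((K : ℝ) + 1)) + log (1 - 1 / ((K : ℝ) + 1) ^ 2) +
        ((K : ℝ) + 1 - 1 - (n : ℝ) / 2) * b) := by
    rcases eq_or_lt_of_le hθ0 with h0 | h0
    · rw [← h0]
      simp only [sub_zero, zero_mul, one_mul, zero_add]
      exact f2
    · have := mul_lt_mul_of_pos_left f1 h0
      nlinarith
  have m4 : (y - 1 - (n : ℝ) / 2) * l = θ * ((y - 1 - (n : ℝ) / 2) * a) +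
      (1 - θ) * ((y - 1 - (n : ℝ) / 2) * b) := by
    rw [hlθ]; ring
  have m5 : 3 * l = θ * (3 * a) + (1 - θ) * (3 * b) := by rw [hlθ]; ring
  rw [m4, m5] at m3
  nlinarith

end Pool.Agent.SG
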